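import Pool.Agent.T9h60.FD.Crit
import Pool.Agent.R503.CR.Asy

/-!
# Primes with a given Frobenius element in the intervals `(λ y, μ y]`
-/

set_option autoImplicit false

namespace Pool.Agent.T9h60.FD

open Finset Filter Topology
open Pool.Agent.W401.Cheb Pool.Agent.W723.SecC Pool.Agent.R503.CR

theorem frob_window (L : Type) [Field L] [NumberField L] [IsGalois ℚ L] (τ : Gal(L/ℚ)) (m : ℕ) (hm : 0 < m)
    {lam mu : ℝ} (hlam : 0 < lam) (hmu : lam < mu) :
    ∀ᶠ y : ℕ in atTop, ∃ p ∈ frobSet L τ m, lam * y < p ∧ (p : ℝ) ≤ mu * y := by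
  have hmu0 : 0 < mu := hlam.trans hmu
  have hA1 := (cheb_log L τ).comp (floor_atTop hmu0)
  have hA0 := (cheb_log L τ).comp (floor_atTop hlam)
  have hl1 := log_floor hmu0
  have hl0 := log_floor hlam
  have h1 := (hA1.mul (floor_div hmu0)).mul (hl0.div hl1 one_ne_zero)
  have h0 := hA0.mul (floor_div hlam)
  have h2 := h1.sub h0
  have e1 : 1 * mu * (1 / 1) - 1 * lam = mu - lam := by ring
  rw [e1] at h2
  have hpos : (0 : ℝ) < mu - lam := sub_pos.2 hmu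
  filter_upwards [h2.eventually (lt_mem_nhds hpos), eventually_ge_atTop 2,
    (floor_atTop hlam).eventually_ge_atTop (m + 2), (floor_atTop hmu0).eventually_ge_atTop 2]
    with n hn hn2 hf0 hf1
  set N₀ : ℕ := ⌊lam * n⌋₊ with hN₀
  set N₁ : ℕ := ⌊mu * n⌋₊ with hN₁
  have hn1 : (1 : ℝ) < n := by exact_mod_cast hn2
  have hn0 : (n : ℝ) ≠ 0 := by linarith
  have hlog : Real.log (n : ℝ) ≠ 0 := (Real.log_pos hn1).ne'
  have hN0 : (1 : ℝ) < N₀ := by
    have : 1 < N₀ := by omega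
    exact_mod_cast this
  have hN1 : (1 : ℝ) < N₁ := by exact_mod_cast hf1
  have hl0' : 0 < Real.log (N₀ : ℝ) := Real.log_pos hN0
  have hl1' : 0 < Real.log (N₁ : ℝ) := Real.log_pos hN1
  have h3 : 0 < Real.log N₀ * (cnt L τ N₁ - cnt L τ N₀) := by
    simp only [Function.comp_apply, Pi.div_apply] at hn
    rw [← hN₀, ← hN₁] at hn
    have h4 : cnt L τ N₁ * Real.log N₁ / N₁ * ((N₁ : ℝ) / n) *
        ((Real.log N₀ / Real.log n) / (Real.log N₁ / Real.log n)) -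
        cnt L τ N₀ * Real.log N₀ / N₀ * ((N₀ : ℝ) / n) =
        Real.log N₀ * (cnt L τ N₁ - cnt L τ N₀) / n := by
      have : (N₁ : ℝ) ≠ 0 := by linarith
      have : (N₀ : ℝ) ≠ 0 := by linarith
      field_simp
    rw [h4, lt_div_iff₀ (by linarith)] at hn
    linarith
  have h5 : 0 < cnt L τ N₁ - cnt L τ N₀ := by
    by_contra hcon
    push Not at hcon
    have := mul_nonneg_of_nonpos_of_nonpos (a := cnt L τ N₁ - cnt L τ N₀) (b := -Real.log N₀) hcon
      (by linarith)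
    nlinarith
  -- a prime between
  have hle : N₀ ≤ N₁ := Nat.floor_mono (mul_le_mul_of_nonneg_right hmu.le (by linarith))
  have hsub : pr N₀ ⊆ pr N₁ := by
    intro p hp
    rw [mem_pr] at hp ⊢
    exact ⟨hp.1.trans hle, hp.2⟩
  have h6 : cnt L τ N₁ - cnt L τ N₀ = ∑ p ∈ pr N₁ \ pr N₀, (xp L τ p : ℝ) := by
    unfold cnt
    rw [← Finset.sum_sdiff hsub]
    ring
  rw [h6] at h5
  obtain ⟨p, hp, hxp⟩ := Finset.exists_ne_zero_of_sum_ne_zero h5.ne'
  rw [Finset.mem_sdiff, mem_pr, mem_pr] at hp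
  obtain ⟨⟨hp1, hpp⟩, hp2⟩ := hp
  have hp3 : N₀ < p := by
    by_contra hcon
    exact hp2 ⟨not_lt.1 hcon, hpp⟩
  refine ⟨p, ⟨hpp, fun hd => ?_, fun h0 => hxp (by rw [h0, Nat.cast_zero])⟩, ?_, ?_⟩
  · have := Nat.le_of_dvd hm hd
    omega
  · have h7 : lam * n < N₀ + 1 := Nat.lt_floor_add_one _
    have h8 : (N₀ : ℝ) + 1 ≤ p := by exact_mod_cast hp3
    linarith
  · have h7 : (N₁ : ℝ) ≤ mu * n := Nat.floor_le (by positivity)
    have h8 : (p : ℝ) ≤ N₁ := by exact_mod_cast hp1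
    linarith

end Pool.Agent.T9h60.FD
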