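import Pool.Agent.T9h60.FD.Mult

/-!
# Twists by the values of multiplicative functions
-/

set_option autoImplicit false

namespace Pool.Agent.T9h60.FD

open Finset Filter Polynomial NumberField Pool.Agent.R925.FD
open Pool.Agent.W401.Cheb Pool.Agent.W723.SecC

open Classical in
theorem mult_main (P : ℤ[X]) (hP0 : P.eval 0 ≠ 0) {K : Type} [Fintype K] (n : ℕ) (hn : 0 < n) (b : ℤ)
    (hb : b ≠ 0) (g : K → ℤ[X])
    (h : ℤ[X]) (hg0 : ∀ k, g k ≠ 0) (hh0 : h ≠ 0) (hdeg : ∀ k, n ∣ (g k).natDegree)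
    (hgg : ∀ k l, k ≠ l →
      IsCoprime ((g k).map (Int.castRingHom ℚ)) ((g l).map (Int.castRingHom ℚ)))
    (hgh : ∀ k, IsCoprime (h.map (Int.castRingHom ℚ)) ((g k).map (Int.castRingHom ℚ))) :
    ∃ κ : ℝ, 0 < κ ∧ ∀ f : ℕ → ℤ, PolyMult P f → ∀ u : ℤ, u ≠ 0 → ∃ C : ℝ, ∀ N : ℕ, 3 ≤ N →
      (((Ioc 0 N).filter fun m => ¬ FDPropFor P n b g h (u * f m)).card : ℝ) ≤
        C * N * (Real.log N) ^ (-κ) := by
  have hP : P ≠ 0 := by
    rintro rfl
    exact hP0 (by rw [eval_zero])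
  obtain ⟨α, hα, Q, hQ, hcrit⟩ := poly_crit P hP n hn b hb g h hg0 hh0 hdeg hgg hgh
  have hstep : ∀ i, ∃ κ : ℝ, 0 < κ ∧ ∀ f : ℕ → ℤ, PolyMult P f → ∀ u : ℤ, u ≠ 0 → ∃ C₂ : ℝ,
      ∀ᶠ N : ℕ in atTop,
      (((Ioc 0 N).filter fun m => ∀ p ∈ Q i, padicValInt p (u * f m) ≠ 1).card : ℝ) ≤
        C₂ * N * (Real.log N) ^ (-κ) := by
    intro i
    obtain ⟨⟨L, iF, iN, iG, τ, m, hm, hi⟩, hroot⟩ := hQ i
    have hpr : ∀ p ∈ Q i, p.Prime := by
      intro p hp
      rw [hi] at hp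
      exact hp.1
    obtain ⟨δ, C, hδ, hcount⟩ := count L τ m hm
    rw [← hi] at hcount
    obtain ⟨κ₀, hκ0, hκ1, C', hC'⟩ := low_sum (Q i) hpr δ C hδ hcount
    choose! ρ hρ using hroot
    refine ⟨κ₀ / 8, by positivity, fun f hf u hu => ?_⟩
    exact mult_exact (Q i) hpr κ₀ C' hκ0 hκ1 hC' P ρ (fun p hp => (hρ p hp).1) (fun p hp => (hρ p hp).2.1)
      (fun p hp => (hρ p hp).2.2 hP0) hf hu
  choose κ hκ hbound using hstep
  obtain ⟨κ₀, hκ₀, hκ₁, -⟩ := common κ (fun _ => 0) hκ (fun _ => le_rfl)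
  refine ⟨κ₀, hκ₀, fun f hf u hu => ?_⟩
  choose C hC using fun i => hbound i f hf u hu
  obtain ⟨N₀, hN₀⟩ := eventually_atTop.1 (eventually_all.2 hC)
  have hN00 : (0 : ℝ) ≤ N₀ := Nat.cast_nonneg _
  have hlog0 : 0 ≤ Real.log ((N₀ : ℝ) + 3) := Real.log_nonneg (by linarith)
  refine ⟨∑ i, |C i| + (Real.log (N₀ + 3)) ^ κ₀, fun N hN => ?_⟩
  have hNr : (3 : ℝ) ≤ N := by exact_mod_cast hN
  have hlog : 1 ≤ Real.log N := by
    rw [Real.le_log_iff_exp_le (by linarith)]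
    have := Real.exp_one_lt_d9
    linarith
  have hpow : 0 < (Real.log N) ^ (-κ₀) := Real.rpow_pos_of_pos (by linarith) _
  have hsum0 : 0 ≤ ∑ i, |C i| := sum_nonneg fun i _ => abs_nonneg _
  have hpow0 : 0 ≤ (Real.log ((N₀ : ℝ) + 3)) ^ κ₀ := Real.rpow_nonneg hlog0 _
  by_cases hc : N₀ ≤ N
  · have hsub : ((Ioc 0 N).filter fun m => ¬ FDPropFor P n b g h (u * f m)) ⊆
        (univ : Finset α).biUnion fun i => (Ioc 0 N).filter fun m =>
          ∀ p ∈ Q i, padicValInt p (u * f m) ≠ 1 := by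
      intro m hm
      obtain ⟨h1, h3⟩ := mem_filter.1 hm
      by_contra hcon
      apply h3
      apply hcrit
      intro i
      by_contra h4
      push Not at h4
      apply hcon
      refine mem_biUnion.2 ⟨i, mem_univ i, mem_filter.2 ⟨h1, fun p hp hpt => ?_⟩⟩
      apply h4 p hp
      rw [hpt]
      exact Nat.coprime_one_left _
    calc (((Ioc 0 N).filter fun m => ¬ FDPropFor P n b g h (u * f m)).card : ℝ)
        ≤ ∑ i, (((Ioc 0 N).filter fun m => ∀ p ∈ Q i, padicValInt p (u * f m) ≠ 1).card : ℝ) := by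
          exact_mod_cast (card_le_card hsub).trans card_biUnion_le
      _ ≤ ∑ i, C i * N * (Real.log N) ^ (-κ i) := sum_le_sum fun i _ => hN₀ N hc i
      _ ≤ ∑ i, |C i| * (N * (Real.log N) ^ (-κ₀)) := by
          refine sum_le_sum fun i _ => ?_
          have h1 : (Real.log N) ^ (-κ i) ≤ (Real.log N) ^ (-κ₀) :=
            Real.rpow_le_rpow_of_exponent_le hlog (neg_le_neg (hκ₁ i))
          have h2 : 0 ≤ (Real.log N) ^ (-κ i) := Real.rpow_nonneg (by linarith) _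
          calc C i * N * (Real.log N) ^ (-κ i) ≤ |C i| * N * (Real.log N) ^ (-κ i) := by
                refine mul_le_mul_of_nonneg_right ?_ h2
                exact mul_le_mul_of_nonneg_right (le_abs_self _) (by linarith)
            _ ≤ |C i| * N * (Real.log N) ^ (-κ₀) :=
                mul_le_mul_of_nonneg_left h1 (by positivity)
            _ = _ := by ring
      _ = (∑ i, |C i|) * N * (Real.log N) ^ (-κ₀) := by rw [← sum_mul]; ring
      _ ≤ (∑ i, |C i| + (Real.log (N₀ + 3)) ^ κ₀) * N * (Real.log N) ^ (-κ₀) := by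
          gcongr
          linarith
  · push Not at hc
    have h1 : (((Ioc 0 N).filter fun m => ¬ FDPropFor P n b g h (u * f m)).card : ℝ) ≤ N := by
      have h2 : ((Ioc 0 N).filter fun m => ¬ FDPropFor P n b g h (u * f m)).card ≤ N := by
        refine (card_filter_le _ _).trans ?_
        rw [Nat.card_Ioc, Nat.sub_zero]
      exact_mod_cast h2
    refine h1.trans ?_
    have h2 : 1 ≤ (Real.log ((N₀ : ℝ) + 3)) ^ κ₀ * (Real.log N) ^ (-κ₀) := by
      rw [Real.rpow_neg (by linarith), ← div_eq_mul_inv, one_le_div (Real.rpow_pos_of_pos (by linarith) _)]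
      refine Real.rpow_le_rpow (by linarith) (Real.log_le_log (by linarith) ?_) hκ₀.le
      have : (N : ℝ) ≤ N₀ := by exact_mod_cast hc.le
      linarith
    have h3 : (∑ i, |C i| + (Real.log ((N₀ : ℝ) + 3)) ^ κ₀) * N * (Real.log N) ^ (-κ₀) =
        (∑ i, |C i|) * N * (Real.log N) ^ (-κ₀) +
          N * ((Real.log ((N₀ : ℝ) + 3)) ^ κ₀ * (Real.log N) ^ (-κ₀)) := by ring
    rw [h3]
    have h4 : 0 ≤ (∑ i, |C i|) * (N : ℝ) * (Real.log N) ^ (-κ₀) := by positivity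
    have h5 : (N : ℝ) * 1 ≤ N * ((Real.log ((N₀ : ℝ) + 3)) ^ κ₀ * (Real.log N) ^ (-κ₀)) :=
      mul_le_mul_of_nonneg_left h2 (by linarith)
    linarith

end Pool.Agent.T9h60.FD
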