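import Pool.Agent.R925.FD.Main

/-!
# Twists `a x ^ m = h(z)`, `b y ^ n = ∏ k, g k (z)`: a criterion in terms of sets of primes given by
# Frobenius elements, for all integers `a`
-/

set_option autoImplicit false
set_option linter.unusedSectionVars false

namespace Pool.Agent.T9h60.FD

open Finset Polynomial Pool.Agent.R925.FD
open Pool.Agent.W401.Cheb Pool.Agent.W723.SecC

/-- At a prime whose exponent in `a` is not divisible by `m`, a point of the covering over `ℚ_p` reduces to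
a zero of `h`. -/
theorem reduces_val {p : ℕ} [hp : Fact p.Prime] {K : Type} {n m : ℕ} (hn : 0 < n)
    {g : K → ℤ[X]} {h : ℤ[X]}
    (hdeg : ∀ k, n ∣ (g k).natDegree) (hdegh : m ∣ h.natDegree)
    (hNC : ∀ u v : ZMod p, (u ≠ 0 ∨ v ≠ 0) → ∀ k, hom h u v = 0 → hom (g k) u v ≠ 0)
    {a : ℤ} (hma : ¬ m ∣ padicValInt p a) {z w x : ℚ_[p]} (hzw : z ≠ 0 ∨ w ≠ 0)
    (hx : (a : ℚ_[p]) * x ^ m = hom h z w) :
    ∃ u v : ZMod p, (u ≠ 0 ∨ v ≠ 0) ∧ hom h u v = 0 ∧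
      ∀ (k : K) (d : ℤ), ¬ (p : ℤ) ∣ d → (∃ y : ℚ_[p], hom (g k) z w = (d : ℚ_[p]) * y ^ n) →
        ∃ y : ZMod p, hom (g k) u v = (d : ZMod p) * y ^ n := by
  obtain ⟨c, z', w', hc, hz, hw, hu⟩ := primitive hzw
  have hh0 : hom h (PadicInt.toZMod z') (PadicInt.toZMod w') = 0 := by
    by_contra hk
    rw [← hom_map] at hk
    obtain ⟨e, he⟩ := hdegh
    have h1 : ((hom h z' w' : ℤ_[p]) : ℚ_[p]) = (a : ℚ_[p]) * (c ^ e * x) ^ m := by
      rw [hom_coe, ← hz, ← hw, hom_mul, ← hx, he, mul_pow, ← pow_mul, mul_comm e m]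
      ring
    have h2 := val_of_toZMod hk
    have h3 := coe_ne_zero_of hk
    rw [h1] at h2 h3
    have h4 : (c ^ e * x) ^ m ≠ 0 := right_ne_zero_of_mul h3
    have ha0 : (a : ℚ_[p]) ≠ 0 := left_ne_zero_of_mul h3
    rw [Padic.valuation_mul ha0 h4, Padic.valuation_pow, Padic.valuation_intCast] at h2
    have h5 : (m : ℤ) ∣ (padicValInt p a : ℤ) := ⟨-(c ^ e * x).valuation, by linarith⟩
    exact hma (by exact_mod_cast h5)
  refine ⟨_, _, hu, hh0, fun k d hd hy => ?_⟩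
  obtain ⟨y, hy⟩ := hy
  have hk := hNC _ _ hu k hh0
  rw [← hom_map] at hk
  obtain ⟨e, he⟩ := hdeg k
  have h1 : ((hom (g k) z' w' : ℤ_[p]) : ℚ_[p]) = (d : ℚ_[p]) * (c ^ e * y) ^ n := by
    rw [hom_coe, ← hz, ← hw, hom_mul, hy, he, mul_pow, ← pow_mul, mul_comm e n]
    ring
  have h2 := PadicInt.isUnit_iff.1 (isUnit_of_toZMod hk)
  rw [PadicInt.norm_def, h1, norm_mul, norm_pow] at h2
  have h3 : ‖(d : ℚ_[p])‖ = 1 := by
    rw [Padic.norm_intCast_eq_one_iff]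
    exact (Int.isCoprime_iff_gcd_eq_one.2 (by
      rw [Int.gcd_comm]
      exact_mod_cast (Nat.Prime.coprime_iff_not_dvd hp.out).2 (fun h => hd (Int.natCast_dvd.2 h))))
  rw [h3, one_mul] at h2
  have h4 : ‖c ^ e * y‖ = 1 := (pow_eq_one_iff_of_nonneg (norm_nonneg _) hn.ne').1 h2
  obtain ⟨y', hy'⟩ : ∃ y' : ℤ_[p], (y' : ℚ_[p]) = c ^ e * y := ⟨⟨c ^ e * y, h4.le⟩, rfl⟩
  refine ⟨PadicInt.toZMod y', ?_⟩
  rw [← hom_map]
  have h5 : hom (g k) z' w' = (d : ℤ_[p]) * y' ^ n := by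
    apply Subtype.coe_injective
    change ((hom (g k) z' w' : ℤ_[p]) : ℚ_[p]) = (((d : ℤ_[p]) * y' ^ n : ℤ_[p]) : ℚ_[p])
    rw [h1, PadicInt.coe_mul, PadicInt.coe_pow, hy', PadicInt.coe_intCast]
  rw [h5, map_mul, map_pow, map_intCast]

/-- The coverings with points over all the fields `ℚ_p` are persistent. -/
def FDProp {K : Type} [Fintype K] (n : ℕ) (b : ℤ) (g : K → ℤ[X]) (h : ℤ[X]) (a : ℤ) : Prop :=
  ∀ m, 2 ≤ m → m ∣ h.natDegree → ∀ δ : K → ℚ, IsClass n b δ →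
    (∀ (p : ℕ) [Fact p.Prime], CoveringHasPoint n m a g h δ ℚ_[p]) → Persistent n g h δ

/-- The property `P` holds for all integers `a` for which each of finitely many sets of primes, given by
Frobenius elements, contains a prime whose exponent in `a` is prime to `D`. -/
def FrobCrit (D : ℕ) (P : ℤ → Prop) : Prop :=
  ∃ (α : Type) (_ : Fintype α) (Q : α → Set ℕ),
    (∀ i, ∃ (L : Type) (_ : Field L) (_ : NumberField L) (_ : IsGalois ℚ L) (τ : Gal(L/ℚ)) (m : ℕ),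
      0 < m ∧ Q i = frobSet L τ m) ∧
    ∀ a : ℤ, (∀ i, ∃ p ∈ Q i, (padicValInt p a).Coprime D) → P a

theorem fd_crit {K : Type} [Fintype K] (n : ℕ) (hn : 0 < n) (b : ℤ) (hb : b ≠ 0) (g : K → ℤ[X])
    (h : ℤ[X]) (hg0 : ∀ k, g k ≠ 0) (hh0 : h ≠ 0) (hdeg : ∀ k, n ∣ (g k).natDegree)
    (hgg : ∀ k l, k ≠ l →
      IsCoprime ((g k).map (Int.castRingHom ℚ)) ((g l).map (Int.castRingHom ℚ)))
    (hgh : ∀ k, IsCoprime (h.map (Int.castRingHom ℚ)) ((g k).map (Int.castRingHom ℚ))) :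
    FrobCrit h.natDegree (FDProp n b g h) := by
  classical
  obtain ⟨N0, hN0, hgood⟩ := good_primes g h hg0 hh0 hgg hgh
  set N : ℕ := N0 * b.natAbs with hN
  have hNpos : 0 < N := Nat.mul_pos hN0 (Int.natAbs_pos.2 hb)
  have hgoodN : ∀ p : ℕ, ¬ p ∣ N → ¬ p ∣ N0 ∧ ¬ (p : ℤ) ∣ b := fun p hp =>
    ⟨fun h1 => hp (h1.trans (Dvd.intro _ rfl)),
      fun h1 => hp ((Int.natCast_dvd.1 h1).trans (Dvd.intro_left _ rfl))⟩
  -- the finite set of the classes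
  set D : Finset ℤ := (Finset.Icc (-((N : ℤ) ^ n)) ((N : ℤ) ^ n)).filter (fun s => s ∣ (N : ℤ) ^ n)
    with hD
  have hNn : (0 : ℤ) < (N : ℤ) ^ n := pow_pos (by exact_mod_cast hNpos) n
  have hmemD : ∀ s : ℤ, s ∣ (N : ℤ) ^ n → s ∈ D := by
    intro s hs
    rw [hD, mem_filter, Finset.mem_Icc]
    have h1 := Int.le_of_dvd hNn hs
    have h2 := Int.le_of_dvd hNn ((neg_dvd).2 hs)
    exact ⟨⟨by linarith, h1⟩, hs⟩
  have hD0 : ∀ s ∈ D, s ≠ 0 := by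
    rintro s hs rfl
    rw [hD, mem_filter] at hs
    exact hNn.ne' (zero_dvd_iff.1 hs.2)
  set Δ : Finset (K → ℤ) := (Fintype.piFinset fun _ : K => D).filter
    (fun s => ¬ Persistent n g h (fun k => (s k : ℚ))) with hΔ
  have hmemΔ : ∀ s : K → ℤ, s ∈ Δ ↔ (∀ k, s k ∈ D) ∧ ¬ Persistent n g h (fun k => (s k : ℚ)) := by
    intro s
    rw [hΔ, mem_filter, Fintype.mem_piFinset]
  have hex : ∀ s : Δ, ∃ (L : Type) (_ : Field L) (_ : NumberField L) (_ : IsGalois ℚ L)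
      (τ : Gal(L/ℚ)) (m : ℕ), 0 < m ∧ ∀ p ∈ frobSet L τ m, p.Prime ∧ ¬ p ∣ N ∧ ¬ R p n g h s.1 := by
    intro s
    obtain ⟨hsD, hnp⟩ := (hmemΔ s).1 s.2
    unfold Persistent at hnp
    push Not at hnp
    obtain ⟨σ, hσ⟩ := hnp
    obtain ⟨L, iF, iN, iG, τ, m, hm, hL⟩ := cheb n hn g h hh0 hdeg s.1 (fun k => hD0 _ (hsD k)) σ (by
      intro β h1 h2
      obtain ⟨k, hk⟩ := hσ β h1 h2
      refine ⟨k, fun y hy => ?_⟩
      have h3 := hk y hy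
      rw [Rat.cast_intCast] at h3
      exact h3)
    refine ⟨L, iF, iN, iG, τ, m * N, Nat.mul_pos hm hNpos, fun p hp => ⟨hp.1,
      fun h4 => hp.2.1 (h4.trans (Dvd.intro_left _ rfl)), ?_⟩⟩
    exact hL p ⟨hp.1, fun h4 => hp.2.1 (h4.trans (Dvd.intro _ rfl)), hp.2.2⟩
  choose L iF iN iG τ m hm hL using hex
  refine ⟨Δ, inferInstance, fun s => frobSet (L s) (τ s) (m s),
    fun s => ⟨L s, iF s, iN s, iG s, τ s, m s, hm s, rfl⟩, ?_⟩
  intro a ha m' hm' hmh δ hδ hloc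
  by_contra hnp
  obtain ⟨hδ0, t, ht⟩ := hδ
  have hval : ∀ k, ∀ p : ℕ, p.Prime → ¬ p ∣ N → (n : ℤ) ∣ padicValRat p (δ k) := by
    intro k p hp hpN
    have hpF : Fact p.Prime := ⟨hp⟩
    obtain ⟨z, w, x, hzw, hx, hy⟩ := hloc p
    exact val_dvd hdeg (fun u v huv => (hgood p hpF (hgoodN p hpN).1 u v huv).1) hb
      (hgoodN p hpN).2 hδ0 ht hzw hy k
  choose s c hs hc hsc using fun k => rep (δ k) (hδ0 k) N hNpos n hn (hval k)
  have hsΔ : s ∈ Δ := by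
    rw [hΔ, mem_filter, Fintype.mem_piFinset]
    refine ⟨fun k => hmemD _ (hs k), fun hper => hnp ?_⟩
    intro σ
    obtain ⟨β, hβ, hβh, hy⟩ := hper σ
    refine ⟨β, hβ, hβh, fun k => ?_⟩
    obtain ⟨y, hyσ, hyk⟩ := hy k
    have hck : ((c k : ℚ) : AlgebraicClosure ℚ) ≠ 0 := Rat.cast_ne_zero.2 (hc k)
    have hσc : σ ((c k : ℚ) : AlgebraicClosure ℚ) = ((c k : ℚ) : AlgebraicClosure ℚ) :=
      map_ratCast σ (c k)
    refine ⟨y / (c k : ℚ), ?_, ?_⟩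
    · rw [map_div₀, hyσ, hσc]
    · rw [hyk, hsc k, div_pow]
      push_cast
      have h5 : ((c k : ℚ) : AlgebraicClosure ℚ) ^ n ≠ 0 := pow_ne_zero _ hck
      field_simp
  obtain ⟨p, hpQ, hpa⟩ := ha ⟨s, hsΔ⟩
  obtain ⟨hpp, hpN, hpR⟩ := hL ⟨s, hsΔ⟩ p hpQ
  have hpF : Fact p.Prime := ⟨hpp⟩
  apply hpR
  obtain ⟨z, w, x, hzw, hx, hy⟩ := hloc p
  have hma : ¬ m' ∣ padicValInt p a := by
    intro h6
    have h7 := Nat.dvd_gcd h6 hmh
    rw [hpa] at h7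
    have := Nat.le_of_dvd one_pos h7
    omega
  obtain ⟨u, v, huv, hhuv, hred⟩ := reduces_val (K := K) hn hdeg hmh
    (fun u v huv => (hgood p hpF (hgoodN p hpN).1 u v huv).2) hma hzw hx
  refine ⟨u, v, huv, hhuv, fun k => ?_⟩
  refine hred k (s k) (fun h3 => ?_) ?_
  · have h4 : (p : ℤ) ∣ (N : ℤ) ^ n := h3.trans (hs k)
    have h5 := (Nat.prime_iff_prime_int.1 hpF.out).dvd_of_dvd_pow h4
    exact hpN (by exact_mod_cast h5)
  · obtain ⟨y, hyk⟩ := hy k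
    refine ⟨(c k : ℚ) * y, ?_⟩
    rw [hyk, hsc k]
    push_cast
    ring

end Pool.Agent.T9h60.FD
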