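import Pool.Agent.T9h60.FD.PShort

/-!
# Values of a polynomial at the integers, and at the primes, of short intervals without exact prime divisors
# in a set of primes of positive lower density: the bound
-/

set_option autoImplicit false

namespace Pool.Agent.T9h60.FD

open Finset Filter Polynomial Pool.Agent.W262.RK

lemma exp_two_le : Real.exp 2 ≤ 15 / 2 := by
  have h := Real.exp_one_lt_d9
  have h0 := Real.exp_pos 1
  have : Real.exp 2 = Real.exp 1 * Real.exp 1 := by rw [← Real.exp_add]; norm_num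
  rw [this]
  nlinarith

/-- the numerical conditions -/
lemma conditions (κ C D : ℝ) (hκ : 0 < κ) : ∀ᶠ H : ℕ in atTop,
    1 ≤ Real.log (Real.log H) ∧ 640 * Real.log (Real.log H) + 120 ≤ Real.log H ∧
    3 * Real.log (40 * Real.log (Real.log H)) + C ≤ κ * Real.log (Real.log H) / 2 ∧
    D ≤ Real.log (Real.log H) ∧ 80 * Real.log (Real.log H) ^ 2 ≤ Real.log H := by
  have hL : Tendsto (fun H : ℕ => Real.log H) atTop atTop :=
    Real.tendsto_log_atTop.comp tendsto_natCast_atTop_atTop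
  have hl : Tendsto (fun H : ℕ => Real.log (Real.log H)) atTop atTop := Real.tendsto_log_atTop.comp hL
  have h1 : ∀ᶠ L : ℝ in atTop, 640 * Real.log L + 120 ≤ L := by
    have := Real.isLittleO_log_id_atTop.def (show (0 : ℝ) < 1 / 1280 by norm_num)
    filter_upwards [this, eventually_ge_atTop (240 : ℝ)] with x hx hx1
    rw [Real.norm_of_nonneg (Real.log_nonneg (by linarith)), id, Real.norm_of_nonneg (by linarith)] at hx
    linarith
  have h2 : ∀ᶠ x : ℝ in atTop, 3 * Real.log (40 * x) + C ≤ κ * x / 2 := by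
    have := Real.isLittleO_log_id_atTop.def (show (0 : ℝ) < κ / 12 by positivity)
    filter_upwards [this, eventually_ge_atTop (1 : ℝ), eventually_ge_atTop ((3 * Real.log 40 + C) * (4 / κ))]
      with x hx hx1 hx2
    rw [Real.norm_of_nonneg (Real.log_nonneg hx1), id, Real.norm_of_nonneg (by linarith)] at hx
    rw [Real.log_mul (by norm_num) (by linarith)]
    have h3 : (3 * Real.log 40 + C) ≤ κ / 4 * x := by
      have := mul_le_mul_of_nonneg_left hx2 (show (0 : ℝ) ≤ κ / 4 by positivity)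
      have e : κ / 4 * ((3 * Real.log 40 + C) * (4 / κ)) = 3 * Real.log 40 + C := by
        field_simp
      linarith
    linarith
  have h3 : ∀ᶠ x : ℝ in atTop, 80 * Real.log x ^ 2 ≤ x := by
    have := (isLittleO_log_rpow_atTop (show (0 : ℝ) < 1 / 2 by norm_num)).def
      (show (0 : ℝ) < 1 / 9 by norm_num)
    filter_upwards [this, eventually_ge_atTop (1 : ℝ)] with x hx hx1
    rw [Real.norm_of_nonneg (Real.log_nonneg hx1), Real.norm_of_nonneg (Real.rpow_nonneg (by linarith) _),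
      ← Real.sqrt_eq_rpow] at hx
    have h5 : √x * √x = x := Real.mul_self_sqrt (by linarith)
    have h6 : 0 ≤ Real.log x := Real.log_nonneg hx1
    have h7 : Real.log x ^ 2 ≤ (1 / 9 * √x) ^ 2 := pow_le_pow_left₀ h6 hx 2
    nlinarith
  filter_upwards [hl.eventually_ge_atTop 1, hL.eventually h1, hl.eventually h2, hl.eventually_ge_atTop D,
    hL.eventually h3] with H a1 a2 a3 a4 a5
  exact ⟨a1, a2, a3, a4, a5⟩

/-- the parameters of the sieve -/
lemma params {H : ℕ} (hH3 : 3 ≤ H) (a1 : 1 ≤ Real.log (Real.log H))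
    (a2 : 640 * Real.log (Real.log H) + 120 ≤ Real.log H)
    (a5 : 80 * Real.log (Real.log H) ^ 2 ≤ Real.log H) :
    ∃ A z k : ℕ, 3 ≤ z ∧ z ≤ A ∧
      Real.log (Real.log H) - Real.log (40 * Real.log (Real.log H)) ≤ Real.log (Real.log A) ∧
      Real.log (Real.log A) ≤ Real.log (Real.log H) ∧
      Real.log (Real.log z) ≤ Real.log (40 * Real.log (Real.log H)) ∧
      (H : ℝ) / z ≤ H * Real.exp (-(2 * Real.log (Real.log H))) ∧
      (A : ℝ) ≤ 2 * (H * Real.exp (-(2 * Real.log (Real.log H)))) ∧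
      8 * Real.log (Real.log H) ≤ k ∧
      ((A : ℝ) + 1) ^ (2 * k + 1) ≤ H * Real.exp (-(2 * Real.log (Real.log H))) := by
  set L : ℝ := Real.log H with hL
  set l : ℝ := Real.log L with hl
  have hH0 : (0 : ℝ) < H := by
    have : 0 < H := by omega
    exact_mod_cast this
  have hLpos : 760 ≤ L := by linarith
  have hexpl : Real.exp l = L := Real.exp_log (by linarith)
  have hexpL : Real.exp L = H := Real.exp_log hH0
  set q : ℝ := L / (40 * l) with hq
  have hl0 : 0 < l := by linarith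
  have hq16 : 16 ≤ q := by
    rw [hq, le_div_iff₀ (by positivity)]
    linarith
  have hql : 2 * l ≤ q := by
    rw [hq, le_div_iff₀ (by positivity)]
    nlinarith
  have hqL : q ≤ L / 40 := by
    rw [hq]
    exact div_le_div_of_nonneg_left (by linarith) (by norm_num) (by linarith)
  have hexp2 : Real.exp (2 * l) = L ^ 2 := by
    rw [two_mul, Real.exp_add, hexpl, sq]
  have hL2 : 760 * L ≤ L ^ 2 := by nlinarith
  refine ⟨⌈Real.exp q⌉₊, ⌈L ^ 2⌉₊, ⌈8 * l⌉₊, ?_⟩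
  set A : ℕ := ⌈Real.exp q⌉₊ with hA
  set z : ℕ := ⌈L ^ 2⌉₊ with hz
  set k : ℕ := ⌈8 * l⌉₊ with hk
  have hA1 : Real.exp q ≤ A := Nat.le_ceil _
  have hA2 : (A : ℝ) < Real.exp q + 1 := Nat.ceil_lt_add_one (Real.exp_pos _).le
  have hz1 : L ^ 2 ≤ z := Nat.le_ceil _
  have hz2 : (z : ℝ) < L ^ 2 + 1 := Nat.ceil_lt_add_one (by positivity)
  have hk1 : 8 * l ≤ k := Nat.le_ceil _
  have hk2 : (k : ℝ) < 8 * l + 1 := Nat.ceil_lt_add_one (by linarith)
  have hexpq : 17 ≤ Real.exp q := by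
    have := Real.add_one_le_exp q
    linarith
  have hzA : z ≤ A := by
    refine Nat.ceil_le_ceil ?_
    rw [← hexp2]
    exact Real.exp_le_exp.2 hql
  have hz3 : 3 ≤ z := by
    have : (3 : ℝ) ≤ z := by linarith
    exact_mod_cast this
  have hA3 : 3 ≤ A := hz3.trans hzA
  have hlogA : q ≤ Real.log A := by
    rw [Real.le_log_iff_exp_le (by linarith)]
    exact hA1
  have he1 : (27 / 10 : ℝ) ≤ Real.exp 1 := by
    have := Real.exp_one_gt_d9
    linarith
  have hA4 : (A : ℝ) + 1 ≤ Real.exp (q + 1) := by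
    rw [Real.exp_add]
    nlinarith
  have hlogA2 : Real.log A ≤ L := by
    rw [Real.log_le_iff_le_exp (by linarith)]
    refine le_trans (by linarith : (A : ℝ) ≤ Real.exp (q + 1)) (Real.exp_le_exp.2 ?_)
    linarith
  have hhalf : Real.exp (L / 2) ≤ H * Real.exp (-(2 * l)) := by
    rw [← hexpL, ← Real.exp_add]
    exact Real.exp_le_exp.2 (by linarith)
  refine ⟨hz3, hzA, ?_, Real.log_le_log (by linarith) hlogA2, ?_, ?_, ?_, hk1, ?_⟩
  · have h1 : Real.log q = l - Real.log (40 * l) := by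
      rw [hq, Real.log_div (by linarith) (by positivity)]
    rw [← h1]
    exact Real.log_le_log (by linarith) hlogA
  · have h1 : Real.log z ≤ 3 * l := by
      have h2 : (z : ℝ) ≤ L ^ 3 := by nlinarith
      have h3 := Real.log_le_log (by linarith : (0 : ℝ) < z) h2
      rw [Real.log_pow] at h3
      exact_mod_cast h3
    have h4 : 0 < Real.log z := Real.log_pos (by linarith)
    exact Real.log_le_log h4 (by linarith)
  · rw [Real.exp_neg, hexp2, ← div_eq_mul_inv]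
    exact div_le_div_of_nonneg_left hH0.le (by positivity) hz1
  · have h3 : Real.exp q ≤ Real.exp (L / 2) := Real.exp_le_exp.2 (by linarith)
    have h4 : (1 : ℝ) ≤ Real.exp (L / 2) := Real.one_le_exp (by linarith)
    linarith
  · refine le_trans ?_ hhalf
    refine (pow_le_pow_left₀ (by positivity) hA4 _).trans ?_
    rw [← Real.exp_nat_mul]
    refine Real.exp_le_exp.2 ?_
    push_cast
    have h2 : q * l = L / 40 := by
      rw [hq]
      field_simp
    have h3 : (2 * (k : ℝ) + 1) * (q + 1) ≤ (16 * l + 3) * (q + 1) :=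
      mul_le_mul_of_nonneg_right (by linarith) (by linarith)
    have h4 : (16 * l + 3) * (q + 1) = 16 * (q * l) + 16 * l + 3 * q + 3 := by ring
    rw [h4, h2] at h3
    linarith

open Classical in
theorem poly_eventually (Q : Set ℕ) (hQ : ∀ p ∈ Q, p.Prime) (κ₀ C' : ℝ) (hκ0 : 0 < κ₀) (hκ1 : κ₀ ≤ 1)
    (hC' : ∀ x : ℕ, 3 ≤ x →
      κ₀ * Real.log (Real.log x) - C' ≤ ∑ p ∈ PS 0 x, (if p ∈ Q then (1 : ℝ) else 0) / p)
    (F : ℤ[X]) (ρ : ℕ → ℤ) (hρ1 : ∀ p ∈ Q, (p : ℤ) ∣ F.eval (ρ p))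
    (hρ2 : ∀ p ∈ Q, ¬ (p : ℤ) ∣ F.derivative.eval (ρ p))
    (b : Prop) (hb : b → ∀ p ∈ Q, ¬ (p : ℤ) ∣ ρ p) :
    ∀ᶠ H : ℕ in atTop, ∀ M : ℤ,
      (((Ioc M (M + H)).filter fun a => (b → a.natAbs.Prime) ∧
        ∀ p ∈ Q, (p : ℤ) ∣ F.eval a → (p : ℤ) ^ 2 ∣ F.eval a).card : ℝ) ≤
        19 * H * (Real.log H) ^ (-(κ₀ / 2 + if b then (1 : ℝ) else 0)) := by
  obtain ⟨C1, hC1⟩ := Pool.Agent.R925.FD.mert
  obtain ⟨C3, hC3⟩ := mert_low
  set β : ℝ := if b then 1 else 0 with hβ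
  have hβ0 : 0 ≤ β := by
    rw [hβ]
    split_ifs <;> norm_num
  have hβ1 : β ≤ 1 := by
    rw [hβ]
    split_ifs <;> norm_num
  filter_upwards [conditions κ₀ (C' + C1 + |C3|) |C1| hκ0, eventually_ge_atTop 3] with H ⟨a1, a2, a3, a4, a5⟩ hH3 M
  obtain ⟨A, z, k, hz3, hzA, hllA, hllA2, hllz, hHz, hAH, hk1, hpow⟩ := params hH3 a1 a2 a5
  set L : ℝ := Real.log H with hL
  set l : ℝ := Real.log L with hl
  have hH0 : (0 : ℝ) < H := by
    have : 0 < H := by omega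
    exact_mod_cast this
  have hLpos : 760 ≤ L := by linarith
  have hA3 : 3 ≤ A := hz3.trans hzA
  -- the decomposition
  have hsub : ((Ioc M (M + H)).filter fun a => (b → a.natAbs.Prime) ∧
      ∀ p ∈ Q, (p : ℤ) ∣ F.eval a → (p : ℤ) ^ 2 ∣ F.eval a) ⊆
      (((Ioc M (M + H)).filter fun a => ∃ p ∈ PS z A, p ∈ Q ∧ (p : ℤ) ∣ a - ρ p ∧
        (p : ℤ) ^ 2 ∣ F.eval a) ∪
      ((Ioc M (M + H)).filter fun a => (b → ∀ p ∈ PS 0 A, ¬ (p : ℤ) ∣ a) ∧
        ∀ p ∈ PS z A, p ∈ Q → ¬ (p : ℤ) ∣ a - ρ p)) ∪ Icc (-(A : ℤ)) A := by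
    intro a ha
    obtain ⟨ha1, ha2, ha3⟩ := mem_filter.1 ha
    by_cases hE1 : ∃ p ∈ PS z A, p ∈ Q ∧ (p : ℤ) ∣ a - ρ p ∧ (p : ℤ) ^ 2 ∣ F.eval a
    · exact mem_union_left _ (mem_union_left _ (mem_filter.2 ⟨ha1, hE1⟩))
    by_cases hE3 : a ∈ Icc (-(A : ℤ)) A
    · exact mem_union_right _ hE3
    refine mem_union_left _ (mem_union_right _ (mem_filter.2 ⟨ha1, fun hbb p hp hpa => ?_, fun p hp hpQ hpa => ?_⟩))
    · have hpr := ha2 hbb
      have h1 : p ∣ a.natAbs := Int.natCast_dvd.1 hpa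
      obtain ⟨h2, h3⟩ := mem_filter.1 hp
      have h4 := (Nat.prime_dvd_prime_iff_eq h3 hpr).1 h1
      apply hE3
      rw [mem_Ioc] at h2
      rw [mem_Icc]
      omega
    · apply hE1
      refine ⟨p, hp, hpQ, hpa, ha3 p hpQ ?_⟩
      have h1 : a - ρ p ∣ F.eval a - F.eval (ρ p) := sub_dvd_eval_sub a (ρ p) F
      have h2 := dvd_add (hpa.trans h1) (hρ1 p hpQ)
      rwa [sub_add_cancel] at h2
  have hE3c : ((Icc (-(A : ℤ)) A).card : ℝ) ≤ 3 * A := by
    have h1 : (Icc (-(A : ℤ)) A).card = 2 * A + 1 := by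
      rw [Int.card_Icc]
      omega
    rw [h1]
    push_cast
    have : (3 : ℝ) ≤ A := by exact_mod_cast hA3
    linarith
  have hcard : (((Ioc M (M + H)).filter fun a => (b → a.natAbs.Prime) ∧
      ∀ p ∈ Q, (p : ℤ) ∣ F.eval a → (p : ℤ) ^ 2 ∣ F.eval a).card : ℝ) ≤
      (((Ioc M (M + H)).filter fun a => ∃ p ∈ PS z A, p ∈ Q ∧ (p : ℤ) ∣ a - ρ p ∧
        (p : ℤ) ^ 2 ∣ F.eval a).card : ℝ) +
      (((Ioc M (M + H)).filter fun a => (b → ∀ p ∈ PS 0 A, ¬ (p : ℤ) ∣ a) ∧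
        ∀ p ∈ PS z A, p ∈ Q → ¬ (p : ℤ) ∣ a - ρ p).card : ℝ) + ((Icc (-(A : ℤ)) A).card : ℝ) := by
    have h1 := (card_le_card hsub).trans (card_union_le _ _)
    have h2 := card_union_le ((Ioc M (M + H)).filter fun a => ∃ p ∈ PS z A, p ∈ Q ∧ (p : ℤ) ∣ a - ρ p ∧
        (p : ℤ) ^ 2 ∣ F.eval a) ((Ioc M (M + H)).filter fun a => (b → ∀ p ∈ PS 0 A, ¬ (p : ℤ) ∣ a) ∧
        ∀ p ∈ PS z A, p ∈ Q → ¬ (p : ℤ) ∣ a - ρ p)
    have h3 := h1.trans (Nat.add_le_add_right h2 _)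
    exact_mod_cast h3
  have hE1 := squares F ρ Q hQ hρ2 M H z A (by omega) hzA
  have hE2 := brun_interval Q ρ b hb M H z A k
  -- the main quantity
  set e : ℝ := Real.exp (-((κ₀ / 2 + β) * l)) with he
  have he0 : 0 < e := Real.exp_pos _
  have heL : Real.exp (-(2 * l)) ≤ e := Real.exp_le_exp.2 (by nlinarith)
  have heq : L ^ (-(κ₀ / 2 + β)) = e := by
    rw [Real.rpow_def_of_pos (by linarith), he]
    congr 1
    rw [← hl]
    ring
  rw [heq]
  have hHe : H * Real.exp (-(2 * l)) ≤ H * e := mul_le_mul_of_nonneg_left heL hH0.le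
  -- T2
  have hT2 : H * Real.exp (-((if b then ∑ p ∈ PS 0 A, (1 : ℝ) / p else 0) +
      ∑ p ∈ PS z A, (if p ∈ Q then (1 : ℝ) else 0) / p)) ≤ H * e := by
    refine mul_le_mul_of_nonneg_left (Real.exp_le_exp.2 (neg_le_neg ?_)) hH0.le
    have h1 := hC' A hA3
    have h2 := hC1 z hz3
    have h3 : ∑ p ∈ PS 0 A, (if p ∈ Q then (1 : ℝ) else 0) / p ≤
        ∑ p ∈ PS 0 z, (1 : ℝ) / p + ∑ p ∈ PS z A, (if p ∈ Q then (1 : ℝ) else 0) / p := by
      have h4 : PS 0 A = PS 0 z ∪ PS z A := by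
        unfold PS
        rw [← filter_union]
        congr 1
        exact (Ioc_union_Ioc_eq_Ioc (Nat.zero_le _) hzA).symm
      have h5 : Disjoint (PS 0 z) (PS z A) := by
        unfold PS
        refine disjoint_filter_filter (disjoint_left.2 fun x hx hx2 => ?_)
        rw [mem_Ioc] at hx hx2
        omega
      rw [h4, sum_union h5]
      refine add_le_add (sum_le_sum fun p _ => ?_) le_rfl
      split_ifs
      · exact le_rfl
      · rw [zero_div]
        positivity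
    have h6 : κ₀ * (l - Real.log (40 * l)) ≤ κ₀ * Real.log (Real.log A) :=
      mul_le_mul_of_nonneg_left hllA hκ0.le
    have h7 : 0 ≤ Real.log (40 * l) := Real.log_nonneg (by linarith)
    have h8 : κ₀ * Real.log (40 * l) ≤ Real.log (40 * l) := by nlinarith
    have h9 : β * l - Real.log (40 * l) - |C3| ≤ (if b then ∑ p ∈ PS 0 A, (1 : ℝ) / p else 0) := by
      rw [hβ]
      split_ifs with hbb
      · have h10 := hC3 A hA3
        have h11 := le_abs_self C3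
        linarith
      · have h11 := abs_nonneg C3
        linarith
    have h12 : (κ₀ / 2 + β) * l = κ₀ * l / 2 + β * l := by ring
    rw [h12]
    have h13 : κ₀ * (l - Real.log (40 * l)) = κ₀ * l - κ₀ * Real.log (40 * l) := by ring
    rw [h13] at h6
    linarith
  -- T3
  have hT3 : H * Real.exp (-(2 * (2 * k + 1 : ℕ)) +
      Real.exp 2 * ∑ p ∈ Nat.primesBelow (A + 1), 2 / (p : ℝ)) ≤ H * e := by
    refine mul_le_mul_of_nonneg_left ((Real.exp_le_exp.2 ?_).trans heL) hH0.le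
    have h1 : ∑ p ∈ Nat.primesBelow (A + 1), 2 / (p : ℝ) = 2 * ∑ p ∈ PS 0 A, (1 : ℝ) / p := by
      have h2 : Nat.primesBelow (A + 1) = PS 0 A := by
        ext p
        unfold PS
        rw [Nat.mem_primesBelow, mem_filter, mem_Ioc]
        constructor
        · rintro ⟨h3, h4⟩
          exact ⟨⟨h4.pos, by omega⟩, h4⟩
        · rintro ⟨h3, h4⟩
          exact ⟨by omega, h4⟩
      rw [h2, mul_sum]
      refine sum_congr rfl fun p _ => ?_
      ring
    rw [h1]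
    have h2 := hC1 A hA3
    have h3 : ∑ p ∈ PS 0 A, (1 : ℝ) / p ≤ 2 * l := by
      have := le_abs_self C1
      linarith
    have h4 : 0 ≤ ∑ p ∈ PS 0 A, (1 : ℝ) / p := sum_nonneg fun p _ => by positivity
    have h5 := exp_two_le
    have h6 : Real.exp 2 * (2 * ∑ p ∈ PS 0 A, (1 : ℝ) / p) ≤ 15 / 2 * (4 * l) := by
      have h7 : 2 * ∑ p ∈ PS 0 A, (1 : ℝ) / p ≤ 4 * l := by linarith
      exact mul_le_mul h5 h7 (by linarith) (by norm_num)
    push_cast
    linarith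
  -- T4
  have hT4 : Real.exp 2 * ((A : ℝ) + 1) ^ (2 * k + 1) ≤ 8 * (H * e) := by
    have h2 := exp_two_le
    have h4 : (0 : ℝ) ≤ ((A : ℝ) + 1) ^ (2 * k + 1) := by positivity
    have h5 : Real.exp 2 * ((A : ℝ) + 1) ^ (2 * k + 1) ≤ 15 / 2 * (H * e) :=
      mul_le_mul h2 (hpow.trans hHe) h4 (by norm_num)
    have h6 : 0 ≤ H * e := by positivity
    linarith
  have h20 : 19 * (H : ℝ) * e = 19 * (H * e) := by ring
  rw [h20]
  linarith

open Classical in
/-- **Values without exact prime divisors in a set of primes.** -/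
theorem poly_exact (Q : Set ℕ) (hQ : ∀ p ∈ Q, p.Prime) (δ C : ℝ) (hδ : 0 < δ)
    (hcount : ∀ N : ℕ, δ * (∑ n ∈ range N, Set.indicator {p | p.Prime} (fun _ => (1 : ℝ)) n) - C ≤
      ∑ n ∈ range N, Set.indicator Q (fun _ => (1 : ℝ)) n)
    (F : ℤ[X]) (ρ : ℕ → ℤ) (hρ1 : ∀ p ∈ Q, (p : ℤ) ∣ F.eval (ρ p))
    (hρ2 : ∀ p ∈ Q, ¬ (p : ℤ) ∣ F.derivative.eval (ρ p))
    (b : Prop) (hb : b → ∀ p ∈ Q, ¬ (p : ℤ) ∣ ρ p) :
    ∃ κ : ℝ, 0 < κ ∧ ∃ C₂ : ℝ, 0 ≤ C₂ ∧ ∀ (M : ℤ) (H : ℕ), 3 ≤ H →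
      (((Ioc M (M + H)).filter fun a => (b → a.natAbs.Prime) ∧
        ∀ p ∈ Q, (p : ℤ) ∣ F.eval a → (p : ℤ) ^ 2 ∣ F.eval a).card : ℝ) ≤
        C₂ * H * (Real.log H) ^ (-(κ + if b then (1 : ℝ) else 0)) := by
  obtain ⟨κ₀, hκ0, hκ1, C', hC'⟩ := low_sum Q hQ δ C hδ hcount
  obtain ⟨H₀, hH₀⟩ := eventually_atTop.1
    (poly_eventually Q hQ κ₀ C' hκ0 hκ1 hC' F ρ hρ1 hρ2 b hb)
  set w : ℝ := κ₀ / 2 + if b then (1 : ℝ) else 0 with hw
  have hw0 : 0 ≤ w := by
    rw [hw]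
    split_ifs <;> linarith
  have hH00 : (0 : ℝ) ≤ H₀ := Nat.cast_nonneg _
  have hlog0 : 0 ≤ Real.log ((H₀ : ℝ) + 3) := Real.log_nonneg (by linarith)
  refine ⟨κ₀ / 2, by positivity, 19 + (Real.log (H₀ + 3)) ^ w, ?_, fun M H hH => ?_⟩
  · have := Real.rpow_nonneg hlog0 w
    linarith
  have hHr : (3 : ℝ) ≤ H := by exact_mod_cast hH
  have hlog : 0 < Real.log H := Real.log_pos (by linarith)
  have hpow : 0 < (Real.log H) ^ (-w) := Real.rpow_pos_of_pos hlog _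
  by_cases hc : H₀ ≤ H
  · refine (hH₀ H hc M).trans ?_
    have h1 : 0 ≤ (Real.log ((H₀ : ℝ) + 3)) ^ w := Real.rpow_nonneg hlog0 _
    gcongr
    linarith
  · push Not at hc
    have h1 : (((Ioc M (M + H)).filter fun a => (b → a.natAbs.Prime) ∧
        ∀ p ∈ Q, (p : ℤ) ∣ F.eval a → (p : ℤ) ^ 2 ∣ F.eval a).card : ℝ) ≤ H := by
      have h2 : ((Ioc M (M + H)).filter fun a => (b → a.natAbs.Prime) ∧
        ∀ p ∈ Q, (p : ℤ) ∣ F.eval a → (p : ℤ) ^ 2 ∣ F.eval a).card ≤ H := by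
        refine (card_filter_le _ _).trans ?_
        rw [Int.card_Ioc]
        omega
      exact_mod_cast h2
    refine h1.trans ?_
    have h2 : 1 ≤ (Real.log ((H₀ : ℝ) + 3)) ^ w * (Real.log H) ^ (-w) := by
      rw [Real.rpow_neg hlog.le, ← div_eq_mul_inv, one_le_div (Real.rpow_pos_of_pos hlog _)]
      refine Real.rpow_le_rpow hlog.le (Real.log_le_log (by linarith) ?_) hw0
      have : (H : ℝ) ≤ H₀ := by exact_mod_cast hc.le
      linarith
    have h3 : (19 + (Real.log ((H₀ : ℝ) + 3)) ^ w) * H * (Real.log H) ^ (-w) =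
        19 * H * (Real.log H) ^ (-w) + H * ((Real.log ((H₀ : ℝ) + 3)) ^ w * (Real.log H) ^ (-w)) := by ring
    rw [h3]
    have h4 : 0 ≤ 19 * (H : ℝ) * (Real.log H) ^ (-w) := by positivity
    have h5 : (H : ℝ) * 1 ≤ H * ((Real.log ((H₀ : ℝ) + 3)) ^ w * (Real.log H) ^ (-w)) :=
      mul_le_mul_of_nonneg_left h2 (by linarith)
    linarith

end Pool.Agent.T9h60.FD
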