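import Pool.Agent.T9h60.FD.PCrit
import Pool.Agent.T9h60.FD.PShortC

/-!
# Twists by the values of a polynomial at the integers and the primes of short intervals
-/

set_option autoImplicit false

namespace Pool.Agent.T9h60.FD

open Finset Polynomial NumberField Pool.Agent.R925.FD
open Pool.Agent.W401.Cheb Pool.Agent.W723.SecC

/-- a common exponent -/
lemma common {α : Type} [Fintype α] (κ C : α → ℝ) (hκ : ∀ i, 0 < κ i) (hC : ∀ i, 0 ≤ C i) :
    ∃ κ₀ : ℝ, 0 < κ₀ ∧ (∀ i, κ₀ ≤ κ i) ∧ ∃ C₀ : ℝ, 0 ≤ C₀ ∧ ∑ i, C i ≤ C₀ := by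
  have h0 : 0 ≤ ∑ i, (κ i)⁻¹ := sum_nonneg fun i _ => (inv_pos.2 (hκ i)).le
  refine ⟨(∑ i, (κ i)⁻¹ + 1)⁻¹, by positivity, fun i => ?_, ∑ i, C i, sum_nonneg fun i _ => hC i, le_rfl⟩
  have h1 : (κ i)⁻¹ ≤ ∑ i, (κ i)⁻¹ + 1 := by
    have := single_le_sum (f := fun i => (κ i)⁻¹) (fun i _ => (inv_pos.2 (hκ i)).le) (mem_univ i)
    linarith
  rw [inv_le_comm₀ (by positivity) (hκ i)]
  exact h1

open Classical in
theorem poly_main (P : ℤ[X]) (hP : P ≠ 0) {K : Type} [Fintype K] (n : ℕ) (hn : 0 < n) (b : ℤ) (hb : b ≠ 0)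
    (g : K → ℤ[X])
    (h : ℤ[X]) (hg0 : ∀ k, g k ≠ 0) (hh0 : h ≠ 0) (hdeg : ∀ k, n ∣ (g k).natDegree)
    (hgg : ∀ k l, k ≠ l →
      IsCoprime ((g k).map (Int.castRingHom ℚ)) ((g l).map (Int.castRingHom ℚ)))
    (hgh : ∀ k, IsCoprime (h.map (Int.castRingHom ℚ)) ((g k).map (Int.castRingHom ℚ)))
    (c : Prop) (hc : c → P.eval 0 ≠ 0) :
    ∃ κ C : ℝ, 0 < κ ∧ 0 ≤ C ∧ ∀ (M : ℤ) (H : ℕ), 3 ≤ H →
      (((Ioc M (M + H)).filter fun t => (c → t.natAbs.Prime) ∧ ¬ FDPropFor P n b g h (P.eval t)).card : ℝ) ≤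
        C * H * (Real.log H) ^ (-(κ + if c then (1 : ℝ) else 0)) := by
  obtain ⟨α, hα, Q, hQ, hcrit⟩ := poly_crit P hP n hn b hb g h hg0 hh0 hdeg hgg hgh
  have hstep : ∀ i, ∃ κ : ℝ, 0 < κ ∧ ∃ C₂ : ℝ, 0 ≤ C₂ ∧ ∀ (M : ℤ) (H : ℕ), 3 ≤ H →
      (((Ioc M (M + H)).filter fun a => (c → a.natAbs.Prime) ∧
        ∀ p ∈ Q i, (p : ℤ) ∣ P.eval a → (p : ℤ) ^ 2 ∣ P.eval a).card : ℝ) ≤
        C₂ * H * (Real.log H) ^ (-(κ + if c then (1 : ℝ) else 0)) := by
    intro i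
    obtain ⟨⟨L, iF, iN, iG, τ, m, hm, hi⟩, hroot⟩ := hQ i
    have hpr : ∀ p ∈ Q i, p.Prime := by
      intro p hp
      rw [hi] at hp
      exact hp.1
    obtain ⟨δ, C, hδ, hcount⟩ := count L τ m hm
    rw [← hi] at hcount
    choose! ρ hρ using hroot
    exact poly_exact (Q i) hpr δ C hδ hcount P ρ (fun p hp => (hρ p hp).1) (fun p hp => (hρ p hp).2.1) c
      (fun h1 p hp => (hρ p hp).2.2 (hc h1))
  choose κ hκ C hC hbound using hstep
  obtain ⟨κ₀, hκ₀, hκ₁, C₀, hC₀, hC₁⟩ := common κ C hκ hC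
  refine ⟨κ₀, C₀, hκ₀, hC₀, fun M H hH => ?_⟩
  have hH0 : (0 : ℝ) ≤ H := Nat.cast_nonneg _
  have hHr : (3 : ℝ) ≤ H := by exact_mod_cast hH
  have hlog : 1 ≤ Real.log H := by
    rw [Real.le_log_iff_exp_le (by linarith)]
    have := Real.exp_one_lt_d9
    linarith
  have hsub : ((Ioc M (M + H)).filter fun t => (c → t.natAbs.Prime) ∧ ¬ FDPropFor P n b g h (P.eval t)) ⊆
      (univ : Finset α).biUnion fun i => (Ioc M (M + H)).filter fun a => (c → a.natAbs.Prime) ∧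
        ∀ p ∈ Q i, (p : ℤ) ∣ P.eval a → (p : ℤ) ^ 2 ∣ P.eval a := by
    intro t ht
    obtain ⟨h1, h2, h3⟩ := mem_filter.1 ht
    by_contra hcon
    apply h3
    apply hcrit
    intro i
    by_contra h4
    push Not at h4
    apply hcon
    refine mem_biUnion.2 ⟨i, mem_univ i, mem_filter.2 ⟨h1, h2, fun p hp hpt => ?_⟩⟩
    by_contra h5
    apply h4 p hp
    have hpp : p.Prime := by
      obtain ⟨⟨L, iF, iN, iG, τ, m, hm, hi⟩, -⟩ := hQ i
      rw [hi] at hp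
      exact hp.1
    have : Fact p.Prime := ⟨hpp⟩
    have h6 : P.eval t ≠ 0 := by
      intro h7
      rw [h7] at h5
      exact h5 (dvd_zero _)
    have h7 : padicValInt p (P.eval t) = 1 := by
      have h8 : 1 ≤ padicValInt p (P.eval t) := by
        have := (padicValInt_dvd_iff 1 (P.eval t)).1 (by rwa [pow_one])
        exact this.resolve_left h6
      have h9 : ¬ 2 ≤ padicValInt p (P.eval t) := by
        intro h10
        exact h5 ((padicValInt_dvd_iff 2 (P.eval t)).2 (Or.inr h10))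
      omega
    rw [h7]
    exact Nat.coprime_one_left _
  calc (((Ioc M (M + H)).filter fun t => (c → t.natAbs.Prime) ∧ ¬ FDPropFor P n b g h (P.eval t)).card : ℝ)
      ≤ ∑ i, (((Ioc M (M + H)).filter fun a => (c → a.natAbs.Prime) ∧
        ∀ p ∈ Q i, (p : ℤ) ∣ P.eval a → (p : ℤ) ^ 2 ∣ P.eval a).card : ℝ) := by
        exact_mod_cast (card_le_card hsub).trans card_biUnion_le
    _ ≤ ∑ i, C i * H * (Real.log H) ^ (-(κ i + if c then (1 : ℝ) else 0)) :=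
        sum_le_sum fun i _ => hbound i M H hH
    _ ≤ ∑ i, C i * (H * (Real.log H) ^ (-(κ₀ + if c then (1 : ℝ) else 0))) := by
        refine sum_le_sum fun i _ => ?_
        rw [mul_assoc]
        refine mul_le_mul_of_nonneg_left (mul_le_mul_of_nonneg_left ?_ hH0) (hC i)
        refine Real.rpow_le_rpow_of_exponent_le hlog ?_
        have := hκ₁ i
        linarith
    _ = (∑ i, C i) * (H * (Real.log H) ^ (-(κ₀ + if c then (1 : ℝ) else 0))) := by rw [sum_mul]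
    _ ≤ C₀ * (H * (Real.log H) ^ (-(κ₀ + if c then (1 : ℝ) else 0))) := by
        refine mul_le_mul_of_nonneg_right hC₁ ?_
        have : 0 ≤ (Real.log H) ^ (-(κ₀ + if c then (1 : ℝ) else 0)) := Real.rpow_nonneg (by linarith) _
        positivity
    _ = C₀ * H * (Real.log H) ^ (-(κ₀ + if c then (1 : ℝ) else 0)) := by ring

end Pool.Agent.T9h60.FD
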