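import Pool.Agent.T9h60.FD.PCrit
import Pool.Agent.R925.FD.Ex
import Pool.Agent.R925.FD.Char

/-!
# The example: no persistent classes for many polynomials
-/

set_option autoImplicit false

namespace Pool.Agent.T9h60.FD

open Polynomial Pool.Agent.R925.FD IntermediateField

lemma moved_aux (W : Type) [Field W] [Algebra ℚ W] [IsGalois ℚ W] (θ x : W) (hx : x ∉ ℚ⟮θ⟯) :
    ∃ σ : W ≃ₐ[ℚ] W, σ θ = θ ∧ σ x ≠ x := by
  by_contra h
  push Not at h
  apply hx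
  rw [← InfiniteGalois.fixedField_fixingSubgroup (ℚ⟮θ⟯ : IntermediateField ℚ W)]
  rw [IntermediateField.mem_fixedField_iff]
  intro σ hσ
  rw [IntermediateField.mem_fixingSubgroup_iff] at hσ
  exact h σ (hσ θ (IntermediateField.mem_adjoin_simple_self ℚ θ))


/-- an automorphism which fixes `θ` moves `x` -/
def Mv (θ x : AlgebraicClosure ℚ) : Prop := ∃ σ : AlgebraicClosure ℚ ≃ₐ[ℚ] AlgebraicClosure ℚ, σ θ = θ ∧ σ x = -x

lemma mv_of (θ x : AlgebraicClosure ℚ) (q : ℚ) (hx : x ^ 2 = (q : AlgebraicClosure ℚ))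
    (h : ∃ σ : AlgebraicClosure ℚ ≃ₐ[ℚ] AlgebraicClosure ℚ, σ θ = θ ∧ σ x ≠ x) : Mv θ x := by
  obtain ⟨σ, h1, h2⟩ := h
  exact ⟨σ, h1, (pm hx σ).resolve_left h2⟩

lemma triv_of {θ x : AlgebraicClosure ℚ} {q : ℚ} (hx : x ^ 2 = (q : AlgebraicClosure ℚ)) (h : ¬ Mv θ x) :
    ∀ σ : AlgebraicClosure ℚ ≃ₐ[ℚ] AlgebraicClosure ℚ, σ θ = θ → σ x = x := by
  intro σ hσ
  by_contra h1
  exact h (mv_of θ x q hx ⟨σ, hσ, h1⟩)

lemma not_mv {θ x y z : AlgebraicClosure ℚ} {q r : ℚ} (hx : x ^ 2 = (q : AlgebraicClosure ℚ)) (hy : y ^ 2 = (r : AlgebraicClosure ℚ)) (hz : z ≠ 0)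
    (h1 : ¬ Mv θ x) (h2 : ¬ Mv θ y) (c : ℚ) (hc : z = (c : AlgebraicClosure ℚ) * (x * y)) : ¬ Mv θ z := by
  rintro ⟨σ, hσ, hσz⟩
  have h3 : σ z = z := by
    rw [hc, map_mul, map_mul, triv_of hx h1 σ hσ, triv_of hy h2 σ hσ, map_ratCast]
  rw [h3] at hσz
  exact hz (self_eq_neg.1 hσz)

lemma fix_two {θ x y t : AlgebraicClosure ℚ} {q r d : ℚ} (hx : x ^ 2 = (q : AlgebraicClosure ℚ)) (hy : y ^ 2 = (r : AlgebraicClosure ℚ)) (ht : t ^ 2 = (d : AlgebraicClosure ℚ))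
    (hx0 : x ≠ 0) (hy0 : y ≠ 0) (h1 : Mv θ x) (h2 : Mv θ (x * t)) (h3 : Mv θ y) (h4 : Mv θ (y * t)) :
    ∃ σ : AlgebraicClosure ℚ ≃ₐ[ℚ] AlgebraicClosure ℚ, σ θ = θ ∧ σ t = t ∧ σ x = -x ∧ σ y = -y := by
  have hxt : (x * t) ^ 2 = ((q * d : ℚ) : AlgebraicClosure ℚ) := by rw [mul_pow, hx, ht, Rat.cast_mul]
  have hyt : (y * t) ^ 2 = ((r * d : ℚ) : AlgebraicClosure ℚ) := by rw [mul_pow, hy, ht, Rat.cast_mul]
  have key : ∀ u : AlgebraicClosure ℚ, u ≠ 0 → ∀ σ : AlgebraicClosure ℚ ≃ₐ[ℚ] AlgebraicClosure ℚ, σ u = -u → σ (u * t) = -(u * t) → σ t = t := by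
    intro u hu σ h5 h6
    rw [map_mul, h5] at h6
    have h7 : -u * σ t = -u * t := by rw [h6]; ring
    exact mul_left_cancel₀ (neg_ne_zero.2 hu) h7
  obtain ⟨σ₁, h5, h6, h7⟩ := two hx hxt (fun σ => σ θ = θ) (fun σ τ h1 h2 => by
    rw [AlgEquiv.trans_apply, h1, h2]) h1 h2
  obtain ⟨σ₂, h8, h9, h10⟩ := two hy hyt (fun σ => σ θ = θ) (fun σ τ h1 h2 => by
    rw [AlgEquiv.trans_apply, h1, h2]) h3 h4
  obtain ⟨σ, ⟨h11, h12⟩, h13, h14⟩ := two hx hy (fun σ => σ θ = θ ∧ σ t = t) (fun σ τ h1 h2 => by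
    rw [AlgEquiv.trans_apply, AlgEquiv.trans_apply, h1.1, h1.2]
    exact h2) ⟨σ₁, ⟨h5, key x hx0 σ₁ h6 h7⟩, h6⟩ ⟨σ₂, ⟨h8, key y hy0 σ₂ h9 h10⟩, h9⟩
  exact ⟨σ, h11, h12, h13, h14⟩

/-- The square roots of `-1`, `-2`, `±17` and `±34` are not in the field generated by `θ`. -/
def NoRoots (θ : AlgebraicClosure ℚ) : Prop :=
  ∀ x ∈ ℚ⟮θ⟯, ∀ q : ℤ, (q = -1 ∨ q = -2 ∨ q = 17 ∨ q = -17 ∨ q = 34 ∨ q = -34) → x ^ 2 ≠ (q : AlgebraicClosure ℚ)

theorem no_pers (P : ℤ[X]) (θ : AlgebraicClosure ℚ) (h0 : aeval θ P = 0) (h1 : aeval θ (derivative P) ≠ 0) (hθ : NoRoots θ)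
    (δ : Fin 2 → ℚ) (hδ : δ 0 ≠ 0) : ¬ PersistentFor P 2 exg exh δ := by
  intro hper
  have hsqrt : ∀ q : ℚ, ∃ x : AlgebraicClosure ℚ, x ^ 2 = (q : AlgebraicClosure ℚ) := fun q => by
    obtain ⟨x, hx⟩ := IsAlgClosed.exists_pow_nat_eq (q : AlgebraicClosure ℚ) (n := 2) (by norm_num)
    exact ⟨x, hx⟩
  obtain ⟨i, hi⟩ := hsqrt (-1)
  obtain ⟨s, hs⟩ := hsqrt 17
  obtain ⟨r, hr⟩ := hsqrt 2
  obtain ⟨d, hd⟩ := hsqrt (δ 0)
  have hi' : i ^ 2 = -1 := by rw [hi]; push_cast; ring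
  have hs' : s ^ 2 = 17 := by rw [hs]; push_cast; ring
  have hr' : r ^ 2 = 2 := by rw [hr]; push_cast; ring
  have hδW : (δ 0 : AlgebraicClosure ℚ) ≠ 0 := Rat.cast_ne_zero.2 hδ
  have hne : ∀ {x c : AlgebraicClosure ℚ}, x ^ 2 = c → c ≠ 0 → x ≠ 0 := by
    rintro x c hx hc rfl
    rw [zero_pow two_ne_zero] at hx
    exact hc hx.symm
  have hi0 : i ≠ 0 := hne hi' (neg_ne_zero.2 one_ne_zero)
  have hs0 : s ≠ 0 := hne hs' (by norm_num)
  have hr0 : r ≠ 0 := hne hr' (by norm_num)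
  have hd0 : d ≠ 0 := hne hd hδW
  -- the moved elements
  have hmv : ∀ (x : AlgebraicClosure ℚ) (q : ℤ), (q = -1 ∨ q = -2 ∨ q = 17 ∨ q = -17 ∨ q = 34 ∨ q = -34) →
      x ^ 2 = (q : AlgebraicClosure ℚ) → Mv θ x := by
    intro x q hq hx
    refine mv_of θ x q (by rw [hx]; push_cast; rfl) ?_
    exact @moved_aux (AlgebraicClosure ℚ) _ (AlgebraicClosure.instAlgebra ℚ) inferInstance θ x
      (fun h2 => hθ x h2 q hq hx)
  have mi : Mv θ i := hmv i (-1) (by simp) (by rw [hi']; push_cast; rfl)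
  have ms : Mv θ s := hmv s 17 (by simp) (by rw [hs']; push_cast; rfl)
  have mis : Mv θ (i * s) := hmv _ (-17) (by simp) (by rw [mul_pow, hi', hs']; push_cast; ring)
  have mrs : Mv θ (r * s) := hmv _ 34 (by simp) (by rw [mul_pow, hr', hs']; push_cast; ring)
  have mri : Mv θ (i * r) := hmv _ (-2) (by simp) (by rw [mul_pow, hi', hr']; push_cast; ring)
  have mirs : Mv θ (i * r * s) := hmv _ (-34) (by simp) (by
    rw [mul_pow, mul_pow, hi', hr', hs']; push_cast; ring)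
  -- the square roots of the values of the first polynomial
  set w : AlgebraicClosure ℚ := 5 * r / d with hw
  set u : AlgebraicClosure ℚ := 2 * s / d with hu
  set v : AlgebraicClosure ℚ := r * s / d with hv
  have hw2 : w ^ 2 = ((50 / δ 0 : ℚ) : AlgebraicClosure ℚ) := by
    rw [hw, div_pow, mul_pow, hr', hd]; push_cast; ring
  have hu2 : u ^ 2 = ((68 / δ 0 : ℚ) : AlgebraicClosure ℚ) := by
    rw [hu, div_pow, mul_pow, hs', hd]; push_cast; ring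
  have hv2 : v ^ 2 = ((34 / δ 0 : ℚ) : AlgebraicClosure ℚ) := by
    rw [hv, div_pow, mul_pow, hs', hr', hd]; push_cast; ring
  have hw0 : w ≠ 0 := div_ne_zero (mul_ne_zero (by norm_num) hr0) hd0
  have hu0 : u ≠ 0 := div_ne_zero (mul_ne_zero (by norm_num) hs0) hd0
  have hv0 : v ≠ 0 := div_ne_zero (mul_ne_zero hr0 hs0) hd0
  have his2 : (i * s) ^ 2 = ((-17 : ℚ) : AlgebraicClosure ℚ) := by rw [mul_pow, hi', hs']; push_cast; ring
  -- the values at the zeros of `h`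
  have hval : ∀ (σ : AlgebraicClosure ℚ ≃ₐ[ℚ] AlgebraicClosure ℚ) (x : AlgebraicClosure ℚ) (β y : AlgebraicClosure ℚ) (c : ℚ), x ≠ 0 → x ^ 2 = ((c / δ 0 : ℚ) : AlgebraicClosure ℚ) →
      σ x = -x → β ^ 2 + 51 = (c : AlgebraicClosure ℚ) → σ y = y →
      aeval β (exg 0) = (δ 0 : AlgebraicClosure ℚ) * y ^ 2 → False := by
    intro σ x β y c hx0 hx2 hσx hβ hyσ hyk
    rw [aeval_exg0, hβ] at hyk
    refine moved (x := x) (y := y) ?_ hσx hx0 hyσ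
    rw [hx2]
    push_cast
    rw [eq_div_iff hδW, mul_comm, ← hyk]
  by_cases hA : Mv θ w ∧ Mv θ (w * i)
  · obtain ⟨σ, hσθ, hσi, hσs, hσw⟩ := fix_two (x := s) (y := w) (t := i) hs hw2 hi hs0 hw0 ms
      (by rw [mul_comm]; exact mis) hA.1 hA.2
    obtain ⟨β, hβ, hβh, hy⟩ := hper σ ⟨θ, hσθ, h0, h1⟩
    rcases aeval_exh β hβh with h3 | h3 | h3
    · obtain ⟨y, hyσ, hyk⟩ := hy 0
      exact hval σ w β y 50 hw0 hw2 hσw (by rw [h3]; norm_num) hyσ hyk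
    · exact moved (x := s) (y := β) (by rw [h3, hs']) hσs hs0 hβ
    · refine moved (x := i * s) (y := β) (by rw [h3, mul_pow, hs', hi']; ring) ?_
        (mul_ne_zero hi0 hs0) hβ
      rw [map_mul, hσi, hσs]
      ring
  by_cases hB : Mv θ u ∧ Mv θ (u * s)
  · obtain ⟨σ, hσθ, hσs, hσi, hσu⟩ := fix_two (x := i) (y := u) (t := s) hi hu2 hs hi0 hu0 mi mis
      hB.1 hB.2
    obtain ⟨β, hβ, hβh, hy⟩ := hper σ ⟨θ, hσθ, h0, h1⟩
    rcases aeval_exh β hβh with h3 | h3 | h3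
    · exact moved (x := i) (y := β) (by rw [h3, hi']) hσi hi0 hβ
    · obtain ⟨y, hyσ, hyk⟩ := hy 0
      exact hval σ u β y 68 hu0 hu2 hσu (by rw [h3]; norm_num) hyσ hyk
    · refine moved (x := i * s) (y := β) (by rw [h3, mul_pow, hs', hi']; ring) ?_
        (mul_ne_zero hi0 hs0) hβ
      rw [map_mul, hσi, hσs]
      ring
  -- the remaining case
  have hwi2 : (w * i) ^ 2 = ((50 / δ 0 * (-1) : ℚ) : AlgebraicClosure ℚ) := by rw [mul_pow, hw2, hi]; push_cast; ring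
  have hus2 : (u * s) ^ 2 = ((68 / δ 0 * 17 : ℚ) : AlgebraicClosure ℚ) := by rw [mul_pow, hu2, hs]; push_cast; ring
  have hvis2 : (v * (i * s)) ^ 2 = ((34 / δ 0 * (-17) : ℚ) : AlgebraicClosure ℚ) := by
    rw [mul_pow, hv2, his2]; push_cast; ring
  have hAB : ¬ Mv θ w ∧ ¬ Mv θ (u * s) := by
    rw [not_and_or] at hA hB
    rcases hA with hA | hA
    · refine ⟨hA, ?_⟩
      rcases hB with hB | hB
      · exfalso
        refine not_mv (z := r * s) hw2 hu2 (mul_ne_zero hr0 hs0) hA hB (δ 0 / 10) ?_ mrs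
        rw [hw, hu]
        push_cast
        rw [← hd]
        field_simp
        ring
      · exact hB
    · exfalso
      rcases hB with hB | hB
      · refine not_mv (z := i * r * s) hwi2 hu2 (mul_ne_zero (mul_ne_zero hi0 hr0) hs0) hA hB (δ 0 / 10) ?_ mirs
        rw [hw, hu]
        push_cast
        rw [← hd]
        field_simp
        ring
      · refine not_mv (z := i * r) hwi2 hus2 (mul_ne_zero hi0 hr0) hA hB (δ 0 / 170) ?_ mri
        have : 5 * r / d * i * (2 * s / d * s) = 10 * (i * r) * s ^ 2 / d ^ 2 := by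
          field_simp
          ring
        rw [hw, hu, this, hs', hd]
        push_cast
        field_simp
        ring
  have hv1 : Mv θ v := by
    by_contra hcon
    refine not_mv (z := s) hw2 hv2 hs0 hAB.1 hcon (δ 0 / 10) ?_ ms
    have : 5 * r / d * (r * s / d) = 5 * r ^ 2 * s / d ^ 2 := by
      field_simp
    rw [hw, hv, this, hr', hd]
    push_cast
    field_simp
    ring
  have hv3 : Mv θ (v * (i * s)) := by
    by_contra hcon
    refine not_mv (z := i) hw2 hvis2 hi0 hAB.1 hcon (δ 0 / 170) ?_ mi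
    have : 5 * r / d * (r * s / d * (i * s)) = 5 * r ^ 2 * s ^ 2 * i / d ^ 2 := by
      field_simp
    rw [hw, hv, this, hr', hs', hd]
    push_cast
    field_simp
    ring
  have hiis : Mv θ (i * (i * s)) := by
    obtain ⟨σ, h2, h3⟩ := ms
    refine ⟨σ, h2, ?_⟩
    have : i * (i * s) = -s := by
      rw [← mul_assoc, ← sq, hi']
      ring
    rw [this, map_neg, h3]
  obtain ⟨σ, hσθ, hσis, hσi, hσv⟩ := fix_two (x := i) (y := v) (t := i * s) hi hv2 his2 hi0 hv0 mi hiis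
    hv1 hv3
  have hσs : σ s = -s := by
    rw [map_mul, hσi] at hσis
    have h3 : -i * σ s = -i * -s := by rw [hσis]; ring
    exact mul_left_cancel₀ (neg_ne_zero.2 hi0) h3
  obtain ⟨β, hβ, hβh, hy⟩ := hper σ ⟨θ, hσθ, h0, h1⟩
  rcases aeval_exh β hβh with h3 | h3 | h3
  · exact moved (x := i) (y := β) (by rw [h3, hi']) hσi hi0 hβ
  · exact moved (x := s) (y := β) (by rw [h3, hs']) hσs hs0 hβ
  · obtain ⟨y, hyσ, hyk⟩ := hy 0
    exact hval σ v β y 34 hv0 hv2 hσv (by rw [h3]; norm_num) hyσ hyk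

end Pool.Agent.T9h60.FD
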