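import Pool.Agent.Erdos456.Mertens

/-!
# Integers without a large prime divisor
-/

set_option autoImplicit false

namespace Pool.Agent.T9h60.FD

open Finset

/-- the integers up to `N` without a prime divisor larger than `y` which divides them exactly once -/
noncomputable def rough (N y : ℕ) : Finset ℕ := by
  classical
  exact (Ioc 0 N).filter fun m => ∀ r : ℕ, r.Prime → y < r → r ∣ m → r ^ 2 ∣ m

lemma log_eq_sum {m y : ℕ} (h : ∀ r : ℕ, r.Prime → r ∣ m → r ≤ y) :
    Real.log m = ∑ p ∈ (Icc 1 y).filter Nat.Prime, (m.factorization p : ℝ) * Real.log p := by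
  rw [Real.log_nat_eq_sum_factorization, Finsupp.sum]
  have h1 : m.factorization.support ⊆ (Icc 1 y).filter Nat.Prime := by
    intro p hp
    rw [Nat.support_factorization, Nat.mem_primeFactors] at hp
    rw [mem_filter, mem_Icc]
    exact ⟨⟨hp.1.one_lt.le, h p hp.1 hp.2.1⟩, hp.1⟩
  refine Finset.sum_subset h1 fun p _ hp => ?_
  rw [Finsupp.notMem_support_iff] at hp
  rw [hp]
  simp

lemma sum_fact (N p : ℕ) : ∑ m ∈ Ioc 0 N, m.factorization p = N.factorial.factorization p := by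
  induction N with
  | zero => simp
  | succ n ih =>
    rw [Finset.sum_Ioc_succ_top (Nat.zero_le n), ih, Nat.factorial_succ,
      Nat.factorization_mul (by omega) (Nat.factorial_ne_zero n), Finsupp.add_apply, add_comm]

lemma fact_le {N p : ℕ} (hp : p.Prime) :
    (N.factorial.factorization p : ℝ) ≤ N / ((p : ℝ) - 1) := by
  have : Fact p.Prime := ⟨hp⟩
  have h1 := sub_one_mul_padicValNat_factorial (p := p) N
  rw [← Nat.factorization_def _ hp] at h1
  have h2 : (p - 1) * N.factorial.factorization p ≤ N := by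
    rw [h1]
    exact Nat.sub_le _ _
  have hp2 : (2 : ℝ) ≤ p := by exact_mod_cast hp.two_le
  have hp1 : (0 : ℝ) < (p : ℝ) - 1 := by linarith
  rw [le_div_iff₀ hp1]
  have h3 : (((p - 1 : ℕ)) : ℝ) = (p : ℝ) - 1 := by
    rw [Nat.cast_sub hp.one_le, Nat.cast_one]
  have h4 : (((p - 1) * N.factorial.factorization p : ℕ) : ℝ) ≤ N := by exact_mod_cast h2
  rw [Nat.cast_mul, h3] at h4
  linarith

/-- **Few integers have no large exact prime divisor.** -/
theorem rough_card : ∃ C : ℝ, 0 ≤ C ∧ ∀ N y : ℕ, 2 ≤ N → 1 ≤ y →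
    ((rough N y).card : ℝ) ≤ N / y + √N + 2 * N * (Real.log y + C) / Real.log N := by
  classical
  obtain ⟨C1, hC1⟩ := Pool.Agent.Erdos456.Mert.mertens_log
  obtain ⟨C2, hC20, hC2⟩ := Pool.Agent.Erdos456.Mert.sum_small_bound
  refine ⟨|C1| + C2, by positivity, fun N y hN hy => ?_⟩
  have hN0 : (0 : ℝ) < N := by
    have : 0 < N := by omega
    exact_mod_cast this
  have hN1 : (2 : ℝ) ≤ N := by exact_mod_cast hN
  have hy0 : (0 : ℝ) < y := by exact_mod_cast hy
  have hlogN : 0 < Real.log N := Real.log_pos (by linarith)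
  set S3 : Finset ℕ := (Ioc 0 N).filter fun m => √N < m ∧ ∀ r : ℕ, r.Prime → r ∣ m → r ≤ y with hS3
  have hsub : rough N y ⊆ ((Ioc y N).biUnion fun r => (Ioc 0 N).filter fun m => r ^ 2 ∣ m) ∪
      (Ioc 0 ⌊√N⌋₊) ∪ S3 := by
    intro m hm
    unfold rough at hm
    obtain ⟨h1, h2⟩ := mem_filter.1 hm
    have h1' := mem_Ioc.1 h1
    by_cases h3 : ∃ r : ℕ, r.Prime ∧ y < r ∧ r ∣ m
    · obtain ⟨r, hr, hyr, hrm⟩ := h3
      have hrN : r ≤ N := (Nat.le_of_dvd h1'.1 hrm).trans h1'.2
      exact mem_union_left _ (mem_union_left _ (mem_biUnion.2 ⟨r, mem_Ioc.2 ⟨hyr, hrN⟩,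
        mem_filter.2 ⟨h1, h2 r hr hyr hrm⟩⟩))
    · by_cases h4 : √N < m
      · refine mem_union_right _ (mem_filter.2 ⟨h1, h4, fun r hr hrm => ?_⟩)
        by_contra h5
        exact h3 ⟨r, hr, not_le.1 h5, hrm⟩
      · refine mem_union_left _ (mem_union_right _ (mem_Ioc.2 ⟨h1'.1, ?_⟩))
        exact Nat.le_floor (not_lt.1 h4)
  -- the squares
  have hA : ((((Ioc y N).biUnion fun r => (Ioc 0 N).filter fun m => r ^ 2 ∣ m)).card : ℝ) ≤ N / y := by
    have h1 : ∀ r ∈ Ioc y N, (((Ioc 0 N).filter fun m => r ^ 2 ∣ m).card : ℝ) ≤ N * ((r : ℝ) ^ 2)⁻¹ := by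
      intro r _
      rw [Nat.Ioc_filter_dvd_card_eq_div, ← div_eq_mul_inv]
      have := @Nat.cast_div_le ℝ _ _ _ N (r ^ 2)
      push_cast at this
      exact this
    by_cases hyN : y ≤ N
    · calc ((((Ioc y N).biUnion fun r => (Ioc 0 N).filter fun m => r ^ 2 ∣ m)).card : ℝ)
          ≤ ∑ r ∈ Ioc y N, (((Ioc 0 N).filter fun m => r ^ 2 ∣ m).card : ℝ) := by
            exact_mod_cast card_biUnion_le
        _ ≤ ∑ r ∈ Ioc y N, N * ((r : ℝ) ^ 2)⁻¹ := sum_le_sum h1
        _ = N * ∑ r ∈ Ioc y N, ((r : ℝ) ^ 2)⁻¹ := by rw [mul_sum]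
        _ ≤ N * ((y : ℝ)⁻¹ - (N : ℝ)⁻¹) :=
            mul_le_mul_of_nonneg_left (sum_Ioc_inv_sq_le_sub (by omega) hyN) hN0.le
        _ ≤ N / y := by
            rw [div_eq_mul_inv]
            refine mul_le_mul_of_nonneg_left ?_ hN0.le
            have : (0 : ℝ) ≤ (N : ℝ)⁻¹ := by positivity
            linarith
    · rw [Ioc_eq_empty (by omega)]
      simp only [biUnion_empty, card_empty, Nat.cast_zero]
      positivity
  have hB : ((Ioc 0 ⌊√N⌋₊).card : ℝ) ≤ √N := by
    rw [Nat.card_Ioc, Nat.sub_zero]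
    exact Nat.floor_le (Real.sqrt_nonneg _)
  -- the smooth numbers
  have hD : (S3.card : ℝ) * (Real.log N / 2) ≤ N * (Real.log y + (|C1| + C2)) := by
    calc (S3.card : ℝ) * (Real.log N / 2) = ∑ m ∈ S3, Real.log N / 2 := by
          rw [sum_const, nsmul_eq_mul]
      _ ≤ ∑ m ∈ S3, Real.log m := by
          refine sum_le_sum fun m hm => ?_
          obtain ⟨-, h1, -⟩ := mem_filter.1 hm
          have h2 : Real.log N / 2 = Real.log (√N) := by rw [Real.log_sqrt hN0.le]
          rw [h2]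
          exact Real.log_le_log (Real.sqrt_pos.2 hN0) h1.le
      _ = ∑ m ∈ S3, ∑ p ∈ (Icc 1 y).filter Nat.Prime, (m.factorization p : ℝ) * Real.log p := by
          refine sum_congr rfl fun m hm => ?_
          obtain ⟨h0, -, h1⟩ := mem_filter.1 hm
          exact log_eq_sum h1
      _ ≤ ∑ m ∈ Ioc 0 N, ∑ p ∈ (Icc 1 y).filter Nat.Prime, (m.factorization p : ℝ) * Real.log p := by
          refine sum_le_sum_of_subset_of_nonneg (filter_subset _ _) fun m _ _ => ?_
          exact sum_nonneg fun p _ => mul_nonneg (Nat.cast_nonneg _) (Real.log_natCast_nonneg p)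
      _ = ∑ p ∈ (Icc 1 y).filter Nat.Prime, (N.factorial.factorization p : ℝ) * Real.log p := by
          rw [sum_comm]
          refine sum_congr rfl fun p _ => ?_
          rw [← sum_mul, ← sum_fact, Nat.cast_sum]
      _ ≤ ∑ p ∈ (Icc 1 y).filter Nat.Prime, N * (Real.log p / p + Real.log p / (p * (p - 1))) := by
          refine sum_le_sum fun p hp => ?_
          have hpp := (mem_filter.1 hp).2
          have hp2 : (2 : ℝ) ≤ p := by exact_mod_cast hpp.two_le
          have h1 := mul_le_mul_of_nonneg_right (fact_le (N := N) hpp) (Real.log_natCast_nonneg p)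
          refine h1.trans (le_of_eq ?_)
          have h3 : (p : ℝ) ≠ 0 := by linarith
          have h4 : (p : ℝ) - 1 ≠ 0 := by linarith
          field_simp
          ring
      _ = N * (∑ p ∈ (Icc 1 y).filter Nat.Prime, Real.log p / p +
            ∑ p ∈ (Icc 1 y).filter Nat.Prime, Real.log p / (p * (p - 1))) := by
          rw [← mul_sum, sum_add_distrib]
      _ ≤ N * (Real.log y + (|C1| + C2)) := by
          refine mul_le_mul_of_nonneg_left ?_ hN0.le
          have h1 := (abs_le.1 (hC1 y hy)).2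
          have h2 := hC2 y
          have h3 := le_abs_self C1
          linarith
  have hD' : (S3.card : ℝ) ≤ 2 * N * (Real.log y + (|C1| + C2)) / Real.log N := by
    rw [le_div_iff₀ hlogN]
    linarith
  calc ((rough N y).card : ℝ) ≤ ((((Ioc y N).biUnion fun r => (Ioc 0 N).filter fun m => r ^ 2 ∣ m) ∪
      (Ioc 0 ⌊√N⌋₊) ∪ S3).card : ℝ) := by exact_mod_cast card_le_card hsub
    _ ≤ ((((Ioc y N).biUnion fun r => (Ioc 0 N).filter fun m => r ^ 2 ∣ m)).card : ℝ) +
      ((Ioc 0 ⌊√N⌋₊).card : ℝ) + (S3.card : ℝ) := by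
        have h1 := card_union_le ((Ioc y N).biUnion fun r => (Ioc 0 N).filter fun m => r ^ 2 ∣ m)
          (Ioc 0 ⌊√N⌋₊)
        have h2 := card_union_le (((Ioc y N).biUnion fun r => (Ioc 0 N).filter fun m => r ^ 2 ∣ m) ∪
          (Ioc 0 ⌊√N⌋₊)) S3
        have h3 := h2.trans (Nat.add_le_add_right h1 _)
        exact_mod_cast h3
    _ ≤ _ := add_le_add (add_le_add hA hB) hD'

end Pool.Agent.T9h60.FD
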