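import Pool.Agent.T9h60.FD.PShortC

/-!
# Prime values without exact prime divisors in a set of primes, uniformly
-/

set_option autoImplicit false

namespace Pool.Agent.T9h60.FD

open Finset Filter Polynomial Pool.Agent.W262.RK

open Classical in
theorem poly_unif (κ₀ C' : ℝ) (hκ0 : 0 < κ₀) (hκ1 : κ₀ ≤ 1) :
    ∀ᶠ H : ℕ in atTop, ∀ (Q : Set ℕ), (∀ p ∈ Q, p.Prime) →
    (∀ x : ℕ, 3 ≤ x →
      κ₀ * Real.log (Real.log x) - C' ≤ ∑ p ∈ PS 0 x, (if p ∈ Q then (1 : ℝ) else 0) / p) →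
    ∀ R : Finset ℕ, (R.card : ℝ) ≤ Real.log H ^ 2 →
    ∀ (F : ℤ[X]) (ρ : ℕ → ℤ), (∀ p ∈ Q, (p : ℤ) ∣ F.eval (ρ p)) →
    (∀ p ∈ Q, ¬ (p : ℤ) ∣ F.derivative.eval (ρ p)) → (∀ p ∈ Q, ¬ (p : ℤ) ∣ ρ p) →
    ∀ M : ℤ,
      (((Ioc M (M + H)).filter fun a => a.natAbs.Prime ∧
        ∀ p ∈ Q, p ∉ R → p ≠ a.natAbs → (p : ℤ) ∣ F.eval a → (p : ℤ) ^ 2 ∣ F.eval a).card : ℝ) ≤
        19 * H * (Real.log H) ^ (-(κ₀ / 2 + 1)) := by
  obtain ⟨C1, hC1⟩ := Pool.Agent.R925.FD.mert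
  obtain ⟨C3, hC3⟩ := mert_low
  filter_upwards [conditions κ₀ (C' + C1 + |C3| + 1) |C1| hκ0, eventually_ge_atTop 3] with H ⟨a1, a2, a3, a4, a5⟩ hH3
  intro Q hQ hC' R hR F ρ hρ1 hρ2 hρ0 M
  obtain ⟨A, z, k, hz3, hzA, hllA, hllA2, hllz, hHz, hAH, hk1, hpow⟩ := params hH3 a1 a2 a5
  set L : ℝ := Real.log H with hL
  set l : ℝ := Real.log L with hl
  have hH0 : (0 : ℝ) < H := by
    have : 0 < H := by omega
    exact_mod_cast this
  have hLpos : 760 ≤ L := by linarith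
  have hA3 : 3 ≤ A := hz3.trans hzA
  set Q' : Set ℕ := {p | p ∈ Q ∧ p ∉ R} with hQ'
  -- the decomposition
  have hsub : ((Ioc M (M + H)).filter fun a => a.natAbs.Prime ∧
      ∀ p ∈ Q, p ∉ R → p ≠ a.natAbs → (p : ℤ) ∣ F.eval a → (p : ℤ) ^ 2 ∣ F.eval a) ⊆
      (((Ioc M (M + H)).filter fun a => ∃ p ∈ PS z A, p ∈ Q' ∧ (p : ℤ) ∣ a - ρ p ∧
        (p : ℤ) ^ 2 ∣ F.eval a) ∪
      ((Ioc M (M + H)).filter fun a => (True → ∀ p ∈ PS 0 A, ¬ (p : ℤ) ∣ a) ∧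
        ∀ p ∈ PS z A, p ∈ Q' → ¬ (p : ℤ) ∣ a - ρ p)) ∪ Icc (-(A : ℤ)) A := by
    intro a ha
    obtain ⟨ha1, ha2, ha3⟩ := mem_filter.1 ha
    by_cases hE1 : ∃ p ∈ PS z A, p ∈ Q' ∧ (p : ℤ) ∣ a - ρ p ∧ (p : ℤ) ^ 2 ∣ F.eval a
    · exact mem_union_left _ (mem_union_left _ (mem_filter.2 ⟨ha1, hE1⟩))
    by_cases hE3 : a ∈ Icc (-(A : ℤ)) A
    · exact mem_union_right _ hE3
    refine mem_union_left _ (mem_union_right _ (mem_filter.2 ⟨ha1, fun _ p hp hpa => ?_, fun p hp hpQ hpa => ?_⟩))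
    · have h1 : p ∣ a.natAbs := Int.natCast_dvd.1 hpa
      obtain ⟨h2, h3⟩ := mem_filter.1 hp
      have h4 := (Nat.prime_dvd_prime_iff_eq h3 ha2).1 h1
      apply hE3
      rw [mem_Ioc] at h2
      rw [mem_Icc]
      omega
    · apply hE1
      refine ⟨p, hp, hpQ, hpa, ha3 p hpQ.1 hpQ.2 ?_ ?_⟩
      · intro h4
        obtain ⟨h2, h3⟩ := mem_filter.1 hp
        apply hE3
        rw [mem_Ioc] at h2
        rw [mem_Icc]
        omega
      · have h1 : a - ρ p ∣ F.eval a - F.eval (ρ p) := sub_dvd_eval_sub a (ρ p) F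
        have h2 := dvd_add (hpa.trans h1) (hρ1 p hpQ.1)
        rwa [sub_add_cancel] at h2
  have hE3c : ((Icc (-(A : ℤ)) A).card : ℝ) ≤ 3 * A := by
    have h1 : (Icc (-(A : ℤ)) A).card = 2 * A + 1 := by
      rw [Int.card_Icc]
      omega
    rw [h1]
    push_cast
    have : (3 : ℝ) ≤ A := by exact_mod_cast hA3
    linarith
  have hcard : (((Ioc M (M + H)).filter fun a => a.natAbs.Prime ∧
      ∀ p ∈ Q, p ∉ R → p ≠ a.natAbs → (p : ℤ) ∣ F.eval a → (p : ℤ) ^ 2 ∣ F.eval a).card : ℝ) ≤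
      (((Ioc M (M + H)).filter fun a => ∃ p ∈ PS z A, p ∈ Q' ∧ (p : ℤ) ∣ a - ρ p ∧
        (p : ℤ) ^ 2 ∣ F.eval a).card : ℝ) +
      (((Ioc M (M + H)).filter fun a => (True → ∀ p ∈ PS 0 A, ¬ (p : ℤ) ∣ a) ∧
        ∀ p ∈ PS z A, p ∈ Q' → ¬ (p : ℤ) ∣ a - ρ p).card : ℝ) + ((Icc (-(A : ℤ)) A).card : ℝ) := by
    have h1 := (card_le_card hsub).trans (card_union_le _ _)
    have h2 := card_union_le ((Ioc M (M + H)).filter fun a => ∃ p ∈ PS z A, p ∈ Q' ∧ (p : ℤ) ∣ a - ρ p ∧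
        (p : ℤ) ^ 2 ∣ F.eval a) ((Ioc M (M + H)).filter fun a => (True → ∀ p ∈ PS 0 A, ¬ (p : ℤ) ∣ a) ∧
        ∀ p ∈ PS z A, p ∈ Q' → ¬ (p : ℤ) ∣ a - ρ p)
    have h3 := h1.trans (Nat.add_le_add_right h2 _)
    exact_mod_cast h3
  have hE1 := squares F ρ Q' (fun p hp => hQ p hp.1) (fun p hp => hρ2 p hp.1) M H z A (by omega) hzA
  have hE2 := brun_interval Q' ρ True (fun _ p hp => hρ0 p hp.1) M H z A k
  have hE1' : (((Ioc M (M + H)).filter fun a => ∃ p ∈ PS z A, p ∈ Q' ∧ (p : ℤ) ∣ a - ρ p ∧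
        (p : ℤ) ^ 2 ∣ F.eval a).card : ℝ) ≤ (H : ℝ) / z + A := by
    convert hE1
  rw [if_pos trivial] at hE2
  have hE2' : (((Ioc M (M + H)).filter fun a => (True → ∀ p ∈ PS 0 A, ¬ (p : ℤ) ∣ a) ∧
        ∀ p ∈ PS z A, p ∈ Q' → ¬ (p : ℤ) ∣ a - ρ p).card : ℝ) ≤
      H * Real.exp (-((∑ p ∈ PS 0 A, (1 : ℝ) / p) +
        ∑ p ∈ PS z A, (if p ∈ Q' then (1 : ℝ) else 0) / p)) +
      (H * Real.exp (-(2 * (2 * k + 1 : ℕ)) + Real.exp 2 * ∑ p ∈ Nat.primesBelow (A + 1), 2 / (p : ℝ)) +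
      Real.exp 2 * (A + 1) ^ (2 * k + 1)) := by
    convert hE2
  -- the main quantity
  set e : ℝ := Real.exp (-((κ₀ / 2 + 1) * l)) with he
  have he0 : 0 < e := Real.exp_pos _
  have heL : Real.exp (-(2 * l)) ≤ e := Real.exp_le_exp.2 (by nlinarith)
  have heq : L ^ (-(κ₀ / 2 + 1)) = e := by
    rw [Real.rpow_def_of_pos (by linarith), he]
    congr 1
    rw [← hl]
    ring
  rw [heq]
  have hHe : H * Real.exp (-(2 * l)) ≤ H * e := mul_le_mul_of_nonneg_left heL hH0.le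
  -- the sum over `R`
  have hz0 : (0 : ℝ) < z := by
    have : 0 < z := by omega
    exact_mod_cast this
  have hRz : (R.card : ℝ) / z ≤ 1 := by
    have h1 : 1 / (z : ℝ) ≤ Real.exp (-(2 * l)) := by
      have h2 : (H : ℝ) * (1 / z) ≤ H * Real.exp (-(2 * l)) := by
        rw [mul_one_div]
        exact hHz
      exact le_of_mul_le_mul_left h2 hH0
    have hexp2 : Real.exp (-(2 * l)) * L ^ 2 = 1 := by
      have hexpl : Real.exp l = L := Real.exp_log (by linarith)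
      rw [← hexpl, ← Real.exp_nat_mul, ← Real.exp_add]
      push_cast
      rw [neg_add_cancel, Real.exp_zero]
    calc (R.card : ℝ) / z = R.card * (1 / z) := by rw [mul_one_div]
      _ ≤ L ^ 2 * Real.exp (-(2 * l)) := mul_le_mul hR h1 (by positivity) (by positivity)
      _ = 1 := by rw [mul_comm]; exact hexp2
  have hQsum : ∑ p ∈ PS z A, (if p ∈ Q then (1 : ℝ) else 0) / p ≤
      ∑ p ∈ PS z A, (if p ∈ Q' then (1 : ℝ) else 0) / p + 1 := by
    have h1 : ∀ p ∈ PS z A, (if p ∈ Q then (1 : ℝ) else 0) / p ≤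
        (if p ∈ Q' then (1 : ℝ) else 0) / p + (if p ∈ R then (1 : ℝ) else 0) / z := by
      intro p hp
      have hzp : (z : ℝ) ≤ p := by
        have := (mem_Ioc.1 (mem_filter.1 hp).1).1
        exact_mod_cast this.le
      have hp0 : (0 : ℝ) < p := lt_of_lt_of_le hz0 hzp
      by_cases h2 : p ∈ Q
      · by_cases h3 : p ∈ R
        · have hp' : p ∉ Q' := fun h4 => h4.2 h3
          rw [if_pos h2, if_pos h3, if_neg hp', zero_div, zero_add]
          exact one_div_le_one_div_of_le hz0 hzp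
        · have hp' : p ∈ Q' := ⟨h2, h3⟩
          rw [if_pos h2, if_neg h3, if_pos hp', zero_div, add_zero]
      · rw [if_neg h2, zero_div]
        positivity
    refine (sum_le_sum h1).trans ?_
    rw [sum_add_distrib]
    have h4 : ∑ p ∈ PS z A, (if p ∈ R then (1 : ℝ) else 0) / z ≤ (R.card : ℝ) / z := by
      rw [← sum_div]
      refine div_le_div_of_nonneg_right ?_ hz0.le
      rw [sum_ite_mem, sum_const, nsmul_eq_mul, mul_one]
      exact_mod_cast card_le_card inter_subset_right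
    linarith
  -- T2
  have hT2 : H * Real.exp (-((∑ p ∈ PS 0 A, (1 : ℝ) / p) +
      ∑ p ∈ PS z A, (if p ∈ Q' then (1 : ℝ) else 0) / p)) ≤ H * e := by
    refine mul_le_mul_of_nonneg_left (Real.exp_le_exp.2 (neg_le_neg ?_)) hH0.le
    have h1 := hC' A hA3
    have h2 := hC1 z hz3
    have h3 : ∑ p ∈ PS 0 A, (if p ∈ Q then (1 : ℝ) else 0) / p ≤
        ∑ p ∈ PS 0 z, (1 : ℝ) / p + ∑ p ∈ PS z A, (if p ∈ Q then (1 : ℝ) else 0) / p := by
      have h4 : PS 0 A = PS 0 z ∪ PS z A := by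
        unfold PS
        rw [← filter_union]
        congr 1
        exact (Ioc_union_Ioc_eq_Ioc (Nat.zero_le _) hzA).symm
      have h5 : Disjoint (PS 0 z) (PS z A) := by
        unfold PS
        refine disjoint_filter_filter (disjoint_left.2 fun x hx hx2 => ?_)
        rw [mem_Ioc] at hx hx2
        omega
      rw [h4, sum_union h5]
      refine add_le_add (sum_le_sum fun p _ => ?_) le_rfl
      split_ifs
      · exact le_rfl
      · rw [zero_div]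
        positivity
    have h6 : κ₀ * (l - Real.log (40 * l)) ≤ κ₀ * Real.log (Real.log A) :=
      mul_le_mul_of_nonneg_left hllA hκ0.le
    have h7 : 0 ≤ Real.log (40 * l) := Real.log_nonneg (by linarith)
    have h8 : κ₀ * Real.log (40 * l) ≤ Real.log (40 * l) := by nlinarith
    have h9 : l - Real.log (40 * l) - |C3| ≤ ∑ p ∈ PS 0 A, (1 : ℝ) / p := by
      have h10 := hC3 A hA3
      have h11 := le_abs_self C3
      linarith
    have h12 : (κ₀ / 2 + 1) * l = κ₀ * l / 2 + l := by ring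
    rw [h12]
    have h13 : κ₀ * (l - Real.log (40 * l)) = κ₀ * l - κ₀ * Real.log (40 * l) := by ring
    rw [h13] at h6
    linarith
  -- T3
  have hT3 : H * Real.exp (-(2 * (2 * k + 1 : ℕ)) +
      Real.exp 2 * ∑ p ∈ Nat.primesBelow (A + 1), 2 / (p : ℝ)) ≤ H * e := by
    refine mul_le_mul_of_nonneg_left ((Real.exp_le_exp.2 ?_).trans heL) hH0.le
    have h1 : ∑ p ∈ Nat.primesBelow (A + 1), 2 / (p : ℝ) = 2 * ∑ p ∈ PS 0 A, (1 : ℝ) / p := by
      have h2 : Nat.primesBelow (A + 1) = PS 0 A := by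
        ext p
        unfold PS
        rw [Nat.mem_primesBelow, mem_filter, mem_Ioc]
        constructor
        · rintro ⟨h3, h4⟩
          exact ⟨⟨h4.pos, by omega⟩, h4⟩
        · rintro ⟨h3, h4⟩
          exact ⟨by omega, h4⟩
      rw [h2, mul_sum]
      refine sum_congr rfl fun p _ => ?_
      ring
    rw [h1]
    have h2 := hC1 A hA3
    have h3 : ∑ p ∈ PS 0 A, (1 : ℝ) / p ≤ 2 * l := by
      have := le_abs_self C1
      linarith
    have h4 : 0 ≤ ∑ p ∈ PS 0 A, (1 : ℝ) / p := sum_nonneg fun p _ => by positivity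
    have h5 := exp_two_le
    have h6 : Real.exp 2 * (2 * ∑ p ∈ PS 0 A, (1 : ℝ) / p) ≤ 15 / 2 * (4 * l) := by
      have h7 : 2 * ∑ p ∈ PS 0 A, (1 : ℝ) / p ≤ 4 * l := by linarith
      exact mul_le_mul h5 h7 (by linarith) (by norm_num)
    push_cast
    linarith
  -- T4
  have hT4 : Real.exp 2 * ((A : ℝ) + 1) ^ (2 * k + 1) ≤ 8 * (H * e) := by
    have h2 := exp_two_le
    have h4 : (0 : ℝ) ≤ ((A : ℝ) + 1) ^ (2 * k + 1) := by positivity
    have h5 : Real.exp 2 * ((A : ℝ) + 1) ^ (2 * k + 1) ≤ 15 / 2 * (H * e) :=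
      mul_le_mul h2 (hpow.trans hHe) h4 (by norm_num)
    have h6 : 0 ≤ H * e := by positivity
    linarith
  have h20 : 19 * (H : ℝ) * e = 19 * (H * e) := by ring
  rw [h20]
  linarith

end Pool.Agent.T9h60.FD
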