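import Pool.Agent.T9h60.FD.PMain
import Pool.Agent.T9h60.FD.Unif
import Pool.Agent.T9h60.FD.Smooth

/-!
# Values of multiplicative functions without exact prime divisors in a set of primes
-/

set_option autoImplicit false

namespace Pool.Agent.T9h60.FD

open Finset Filter Polynomial Pool.Agent.W262.RK

/-- `f` is multiplicative with nonzero values of polynomial growth, and `f r = r ^ j * P(r)` for the large
primes `r`. -/
structure PolyMult (P : ℤ[X]) (f : ℕ → ℤ) : Prop where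
  mul : ∀ m n : ℕ, m.Coprime n → f (m * n) = f m * f n
  ne_zero : ∀ m : ℕ, m ≠ 0 → f m ≠ 0
  growth : ∃ C D : ℕ, ∀ m : ℕ, m ≠ 0 → (f m).natAbs ≤ C * m ^ D
  prime : ∃ r₀ j : ℕ, ∀ r : ℕ, r.Prime → r₀ ≤ r → f r = (r : ℤ) ^ j * P.eval (r : ℤ)

/-- the number of the prime divisors of `u * f m` -/
lemma primes_card {P : ℤ[X]} {f : ℕ → ℤ} (hf : PolyMult P f) {u : ℤ} (hu : u ≠ 0) :
    ∃ B : ℝ, 0 ≤ B ∧ ∀ m N : ℕ, m ≠ 0 → m ≤ N → ((u * f m).natAbs.primeFactors.card : ℝ) ≤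
      B * (1 + Real.log N) := by
  obtain ⟨C, D, hCD⟩ := hf.growth
  have hu0 : 0 < u.natAbs := Int.natAbs_pos.2 hu
  refine ⟨(Real.log (u.natAbs * (C + 1)) + D) / Real.log 2, ?_, fun m N hm hN => ?_⟩
  · have h1 : (1 : ℝ) ≤ (u.natAbs : ℝ) := by exact_mod_cast hu0
    have h2 : (1 : ℝ) ≤ (u.natAbs : ℝ) * (C + 1) := by
      have : (0 : ℝ) ≤ C := Nat.cast_nonneg _
      nlinarith
    have := Real.log_nonneg h2
    have h3 : (0 : ℝ) ≤ D := Nat.cast_nonneg _
    have := Real.log_pos (by norm_num : (1 : ℝ) < 2)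
    positivity
  · have hlog2 : 0 < Real.log 2 := Real.log_pos (by norm_num)
    have h0 : (u * f m).natAbs ≠ 0 := Int.natAbs_ne_zero.2 (mul_ne_zero hu (hf.ne_zero m hm))
    have h1 : 2 ^ (u * f m).natAbs.primeFactors.card ≤ (u * f m).natAbs := by
      calc 2 ^ (u * f m).natAbs.primeFactors.card = ∏ p ∈ (u * f m).natAbs.primeFactors, 2 := by
            rw [prod_const]
        _ ≤ ∏ p ∈ (u * f m).natAbs.primeFactors, p :=
            prod_le_prod' fun p hp => (Nat.prime_of_mem_primeFactors hp).two_le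
        _ ≤ (u * f m).natAbs := Nat.le_of_dvd (Nat.pos_of_ne_zero h0) (Nat.prod_primeFactors_dvd _)
    have hm1 : 1 ≤ m := Nat.one_le_iff_ne_zero.2 hm
    have h2 : (u * f m).natAbs ≤ u.natAbs * (C + 1) * N ^ D := by
      rw [Int.natAbs_mul, mul_assoc]
      refine Nat.mul_le_mul_left _ ((hCD m hm).trans ?_)
      exact Nat.mul_le_mul (Nat.le_succ _) (Nat.pow_le_pow_left hN D)
    have h3 : ((2 : ℝ)) ^ (u * f m).natAbs.primeFactors.card ≤ (u.natAbs : ℝ) * (C + 1) * (N : ℝ) ^ D := by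
      exact_mod_cast h1.trans h2
    have hN0 : (1 : ℝ) ≤ N := by exact_mod_cast hm1.trans hN
    have hu1 : (1 : ℝ) ≤ (u.natAbs : ℝ) := by exact_mod_cast hu0
    have hC0 : (0 : ℝ) ≤ C := Nat.cast_nonneg _
    have hA1 : (1 : ℝ) ≤ (u.natAbs : ℝ) * (C + 1) := by nlinarith
    have h4 := Real.log_le_log (by positivity) h3
    rw [Real.log_pow, Real.log_mul (by positivity) (by positivity), Real.log_pow] at h4
    rw [div_mul_eq_mul_div, le_div_iff₀ hlog2]
    have h5 := Real.log_nonneg hA1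
    have h6 := Real.log_nonneg hN0
    have h7 : (0 : ℝ) ≤ D := Nat.cast_nonneg _
    nlinarith

/-- the parameter `y` -/
lemma params_y (κ₀ B : ℝ) (hκ0 : 0 < κ₀) (hκ1 : κ₀ ≤ 1) (C : ℝ) (hC : 0 ≤ C) (H₀ r₀ : ℕ) :
    ∀ᶠ N : ℕ in atTop, ∃ y : ℕ, 3 ≤ y ∧ H₀ ≤ y ∧ r₀ ≤ y ∧ 1 ≤ Real.log N ∧
      Real.log N ^ (1 - κ₀ / 8) ≤ Real.log y ∧ B * (1 + Real.log N) ≤ Real.log y ^ 2 ∧
      (N : ℝ) / y + √N + 2 * N * (Real.log y + C) / Real.log N ≤
        (2 * C + 8) * N * Real.log N ^ (-(κ₀ / 8)) := by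
  have hL : Tendsto (fun N : ℕ => Real.log N) atTop atTop :=
    Real.tendsto_log_atTop.comp tendsto_natCast_atTop_atTop
  set θ : ℝ := κ₀ / 8 with hθ
  have hθ0 : 0 < θ := by positivity
  have hθ1 : θ ≤ 1 / 8 := by rw [hθ]; linarith
  -- conditions on `L`
  have h1 : ∀ᶠ L : ℝ in atTop, B * (1 + L) ≤ (L ^ (1 - θ)) ^ 2 := by
    have h2 : Tendsto (fun L : ℝ => L ^ (1 - 2 * θ)) atTop atTop :=
      tendsto_rpow_atTop (by linarith)
    filter_upwards [h2.eventually_ge_atTop (2 * |B|), eventually_ge_atTop (1 : ℝ)] with L h3 h4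
    have h5 : (L ^ (1 - θ)) ^ 2 = L * L ^ (1 - 2 * θ) := by
      rw [← Real.rpow_natCast, ← Real.rpow_mul (by linarith)]
      nth_rewrite 2 [← Real.rpow_one L]
      rw [← Real.rpow_add (by linarith)]
      congr 1
      push_cast
      ring
    rw [h5]
    have h6 := le_abs_self B
    have h7 := abs_nonneg B
    nlinarith
  have h2 : ∀ᶠ L : ℝ in atTop, L ^ θ ≤ Real.exp (L ^ (1 - θ)) := by
    have h3 : Tendsto (fun L : ℝ => L ^ (1 - θ)) atTop atTop := tendsto_rpow_atTop (by linarith)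
    filter_upwards [eventually_ge_atTop (1 : ℝ)] with L h4
    have h5 : L ^ θ ≤ L ^ (1 - θ) := Real.rpow_le_rpow_of_exponent_le h4 (by linarith)
    have h6 := Real.add_one_le_exp (L ^ (1 - θ))
    linarith
  have h3 : ∀ᶠ L : ℝ in atTop, L ^ θ ≤ Real.exp (L / 2) := by
    filter_upwards [eventually_ge_atTop (4 : ℝ)] with L h4
    have h5 : L ^ θ ≤ L ^ (1 / 2 : ℝ) := Real.rpow_le_rpow_of_exponent_le (by linarith) (by linarith)
    have h6 := Real.add_one_le_exp (L / 2)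
    have h7 : L ^ (1 / 2 : ℝ) ≤ L / 2 := by
      rw [← Real.sqrt_eq_rpow, Real.sqrt_le_left (by linarith)]
      nlinarith
    linarith
  have h4 : Tendsto (fun L : ℝ => Real.exp (L ^ (1 - θ))) atTop atTop :=
    Real.tendsto_exp_atTop.comp (tendsto_rpow_atTop (by linarith))
  filter_upwards [hL.eventually h1, hL.eventually h2, hL.eventually h3, hL.eventually_ge_atTop 1,
    (h4.comp hL).eventually_ge_atTop ((H₀ : ℝ) + r₀ + 3), eventually_ge_atTop 3] with N a1 a2 a3 a4 a5 a6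
  set L : ℝ := Real.log N with hLd
  have hN0 : (0 : ℝ) < N := by
    have : 0 < N := by omega
    exact_mod_cast this
  simp only [Function.comp_apply] at a5
  set E : ℝ := Real.exp (L ^ (1 - θ)) with hE
  set y : ℕ := ⌈E⌉₊ with hy
  have hy1 : E ≤ y := Nat.le_ceil _
  have hy2 : (y : ℝ) < E + 1 := Nat.ceil_lt_add_one (Real.exp_pos _).le
  have hH0 : (0 : ℝ) ≤ H₀ := Nat.cast_nonneg _
  have hr0 : (0 : ℝ) ≤ r₀ := Nat.cast_nonneg _
  have hlogE : Real.log E = L ^ (1 - θ) := by rw [hE, Real.log_exp]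
  have hEpos : 0 < E := Real.exp_pos _
  have hypos : (0 : ℝ) < y := lt_of_lt_of_le hEpos hy1
  have hlogy : L ^ (1 - θ) ≤ Real.log y := by
    rw [← hlogE]
    exact Real.log_le_log hEpos hy1
  have hpow1 : (1 : ℝ) ≤ L ^ (1 - θ) := Real.one_le_rpow a4 (by linarith)
  refine ⟨y, ?_, ?_, ?_, a4, hlogy, ?_, ?_⟩
  · have : (3 : ℝ) ≤ y := by linarith
    exact_mod_cast this
  · have : (H₀ : ℝ) ≤ y := by linarith
    exact_mod_cast this
  · have : (r₀ : ℝ) ≤ y := by linarith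
    exact_mod_cast this
  · exact a1.trans (pow_le_pow_left₀ (by linarith) hlogy 2)
  · have hLθ : 0 < L ^ θ := Real.rpow_pos_of_pos (by linarith) _
    have hneg : L ^ (-θ) = (L ^ θ)⁻¹ := Real.rpow_neg (by linarith) _
    have t1 : (N : ℝ) / y ≤ N * L ^ (-θ) := by
      rw [hneg, div_eq_mul_inv]
      refine mul_le_mul_of_nonneg_left ?_ hN0.le
      exact inv_anti₀ hLθ (a2.trans hy1)
    have t2 : √N ≤ N * L ^ (-θ) := by
      rw [hneg, ← div_eq_mul_inv, le_div_iff₀ hLθ]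
      have h5 : Real.exp (L / 2) = √N := by
        rw [Real.sqrt_eq_rpow, Real.rpow_def_of_pos hN0, ← hLd]
        congr 1
        ring
      have h6 : √(N : ℝ) * √N = N := Real.mul_self_sqrt hN0.le
      rw [h5] at a3
      have h7 := mul_le_mul_of_nonneg_left a3 (Real.sqrt_nonneg (N : ℝ))
      linarith
    have t3 : Real.log y ≤ L ^ (1 - θ) + 1 := by
      have h5 : (y : ℝ) ≤ E * Real.exp 1 := by
        have h6 : (2 : ℝ) ≤ Real.exp 1 := by
          have := Real.add_one_le_exp (1 : ℝ)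
          linarith
        have h7 : 1 ≤ E := by linarith
        nlinarith
      have h6 := Real.log_le_log hypos h5
      rw [Real.log_mul hEpos.ne' (Real.exp_pos _).ne', hlogE, Real.log_exp] at h6
      exact h6
    have t4 : L ^ (1 - θ) / L = L ^ (-θ) := by
      rw [div_eq_iff (by linarith)]
      nth_rewrite 3 [← Real.rpow_one L]
      rw [← Real.rpow_add (by linarith)]
      congr 1
      ring
    have t5 : 1 / L ≤ L ^ (-θ) := by
      rw [← t4]
      exact div_le_div_of_nonneg_right hpow1 (by linarith)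
    have t6 : 2 * N * (Real.log y + C) / L ≤ 2 * N * (L ^ (-θ) + (C + 1) * L ^ (-θ)) := by
      have h5 : (Real.log y + C) / L ≤ L ^ (-θ) + (C + 1) * L ^ (-θ) := by
        calc (Real.log y + C) / L ≤ (L ^ (1 - θ) + (C + 1)) / L :=
              div_le_div_of_nonneg_right (by linarith) (by linarith)
          _ = L ^ (1 - θ) / L + (C + 1) * (1 / L) := by ring
          _ ≤ L ^ (-θ) + (C + 1) * L ^ (-θ) := by
              rw [t4]
              have := mul_le_mul_of_nonneg_left t5 (by linarith : (0 : ℝ) ≤ C + 1)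
              linarith
      rw [mul_div_assoc]
      exact mul_le_mul_of_nonneg_left h5 (by positivity)
    have t7 : 0 ≤ (N : ℝ) * L ^ (-θ) := by positivity
    nlinarith

open Classical in
/-- **Values of multiplicative functions.** -/
theorem mult_exact (Q : Set ℕ) (hQ : ∀ p ∈ Q, p.Prime) (κ₀ C' : ℝ) (hκ0 : 0 < κ₀) (hκ1 : κ₀ ≤ 1)
    (hC' : ∀ x : ℕ, 3 ≤ x →
      κ₀ * Real.log (Real.log x) - C' ≤ ∑ p ∈ PS 0 x, (if p ∈ Q then (1 : ℝ) else 0) / p)
    (P : ℤ[X]) (ρ : ℕ → ℤ) (hρ1 : ∀ p ∈ Q, (p : ℤ) ∣ P.eval (ρ p))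
    (hρ2 : ∀ p ∈ Q, ¬ (p : ℤ) ∣ P.derivative.eval (ρ p)) (hρ0 : ∀ p ∈ Q, ¬ (p : ℤ) ∣ ρ p)
    {f : ℕ → ℤ} (hf : PolyMult P f) {u : ℤ} (hu : u ≠ 0) :
    ∃ C₂ : ℝ, ∀ᶠ N : ℕ in atTop,
      (((Ioc 0 N).filter fun m => ∀ p ∈ Q, padicValInt p (u * f m) ≠ 1).card : ℝ) ≤
        C₂ * N * (Real.log N) ^ (-(κ₀ / 8)) := by
  obtain ⟨B, hB0, hB⟩ := primes_card hf hu
  obtain ⟨C, hC0, hC⟩ := rough_card
  obtain ⟨r₀, j, hr₀⟩ := hf.prime
  obtain ⟨H₀, hH₀⟩ := eventually_atTop.1 (poly_unif κ₀ C' hκ0 hκ1)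
  refine ⟨(2 * C + 8) + 38, ?_⟩
  filter_upwards [params_y κ₀ B hκ0 hκ1 C hC0 H₀ r₀, eventually_ge_atTop 3] with N hy hN3
  obtain ⟨y, hy3, hyH, hyr0, hL1, hlogy, hBy, hrough⟩ := hy
  set L : ℝ := Real.log N with hL
  have hN0 : (0 : ℝ) < N := by
    have : 0 < N := by omega
    exact_mod_cast this
  have hy0 : 0 < y := by omega
  -- the bad primes for a cofactor
  set S : ℕ → Finset ℤ := fun m' => (Ioc (0 : ℤ) (0 + (N / m' : ℕ))).filter fun a => a.natAbs.Prime ∧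
    ∀ p ∈ Q, p ∉ (u * f m').natAbs.primeFactors → p ≠ a.natAbs → (p : ℤ) ∣ P.eval a →
      (p : ℤ) ^ 2 ∣ P.eval a with hS
  have hsub : ((Ioc 0 N).filter fun m => ∀ p ∈ Q, padicValInt p (u * f m) ≠ 1) ⊆
      rough N y ∪ (Ioc 0 (N / y)).biUnion fun m' => (S m').image fun a => m' * a.natAbs := by
    intro m hm
    obtain ⟨h1, h2⟩ := mem_filter.1 hm
    by_cases h3 : m ∈ rough N y
    · exact mem_union_left _ h3
    have h1' := mem_Ioc.1 h1
    have h4 : ∃ r : ℕ, r.Prime ∧ y < r ∧ r ∣ m ∧ ¬ r ^ 2 ∣ m := by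
      by_contra hcon
      apply h3
      unfold rough
      refine mem_filter.2 ⟨h1, fun r hr hyr hrm => ?_⟩
      by_contra h5
      exact hcon ⟨r, hr, hyr, hrm, h5⟩
    obtain ⟨r, hr, hyr, ⟨m', hm'⟩, hr2⟩ := h4
    have hm'0 : m' ≠ 0 := by
      rintro rfl
      rw [mul_zero] at hm'
      omega
    have hrm' : ¬ r ∣ m' := by
      rintro ⟨c, rfl⟩
      apply hr2
      exact ⟨c, by rw [hm']; ring⟩
    have hcop : m'.Coprime r := ((Nat.Prime.coprime_iff_not_dvd hr).2 hrm').symm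
    have hmm : m = m' * r := by rw [hm', mul_comm]
    have hle : m' * r ≤ N := hmm ▸ h1'.2
    refine mem_union_right _ (mem_biUnion.2 ⟨m', mem_Ioc.2 ⟨Nat.pos_of_ne_zero hm'0, ?_⟩,
      mem_image.2 ⟨(r : ℤ), ?_, ?_⟩⟩)
    · rw [Nat.le_div_iff_mul_le hy0]
      exact (Nat.mul_le_mul_left m' hyr.le).trans hle
    · have hrN : r ≤ N / m' := by
        rw [Nat.le_div_iff_mul_le (Nat.pos_of_ne_zero hm'0), mul_comm]
        exact hle
      refine mem_filter.2 ⟨mem_Ioc.2 ⟨by exact_mod_cast hr.pos, by rw [zero_add]; exact_mod_cast hrN⟩, ?_, ?_⟩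
      · rw [Int.natAbs_natCast]
        exact hr
      · intro p hp hpR hpr hpP
        rw [Int.natAbs_natCast] at hpr
        by_contra hp2
        have hpp := hQ p hp
        have : Fact p.Prime := ⟨hpp⟩
        have hP0 : P.eval (r : ℤ) ≠ 0 := by
          intro h5
          rw [h5] at hp2
          exact hp2 (dvd_zero _)
        have hufm : u * f m' ≠ 0 := mul_ne_zero hu (hf.ne_zero m' hm'0)
        have hfr := hr₀ r hr (hyr0.trans hyr.le)
        have hfr0 : f r ≠ 0 := hf.ne_zero r hr.ne_zero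
        have hpr' : ¬ (p : ℤ) ∣ (r : ℤ) ^ j := by
          intro h5
          have h6 := (Nat.prime_iff_prime_int.1 hpp).dvd_of_dvd_pow h5
          have h7 : p ∣ r := by exact_mod_cast h6
          exact hpr ((Nat.prime_dvd_prime_iff_eq hpp hr).1 h7)
        have hrj0 : (r : ℤ) ^ j ≠ 0 := pow_ne_zero _ (by exact_mod_cast hr.ne_zero)
        have v1 : padicValInt p (u * f m') = 0 := by
          refine padicValInt.eq_zero_of_not_dvd fun h5 => hpR ?_
          rw [Nat.mem_primeFactors]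
          exact ⟨hpp, Int.natCast_dvd.1 h5, Int.natAbs_ne_zero.2 hufm⟩
        have v2 : padicValInt p ((r : ℤ) ^ j) = 0 := padicValInt.eq_zero_of_not_dvd hpr'
        have v3 : padicValInt p (P.eval (r : ℤ)) = 1 := by
          have h8 : 1 ≤ padicValInt p (P.eval (r : ℤ)) := by
            have := (padicValInt_dvd_iff 1 (P.eval (r : ℤ))).1 (by rwa [pow_one])
            exact this.resolve_left hP0
          have h9 : ¬ 2 ≤ padicValInt p (P.eval (r : ℤ)) := by
            intro h10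
            exact hp2 ((padicValInt_dvd_iff 2 (P.eval (r : ℤ))).2 (Or.inr h10))
          omega
        apply h2 p hp
        have hfm : u * f m = (u * f m') * f r := by
          rw [hmm, hf.mul m' r hcop, mul_assoc]
        rw [hfm, padicValInt.mul hufm hfr0, v1, hfr, padicValInt.mul hrj0 hP0, v2, v3]
    · simp only [Int.natAbs_natCast]
      exact hmm.symm
  -- the count
  have hθL : 0 < L ^ (1 - κ₀ / 8) := Real.rpow_pos_of_pos (by linarith) _
  set w : ℝ := (L ^ (1 - κ₀ / 8)) ^ (-(κ₀ / 2 + 1)) with hw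
  have hw0 : 0 ≤ w := Real.rpow_nonneg hθL.le _
  have hcard : ∀ m' ∈ Ioc 0 (N / y), ((S m').card : ℝ) ≤ 19 * N * w * (m' : ℝ)⁻¹ := by
    intro m' hm'
    rw [mem_Ioc] at hm'
    have hm'0 : m' ≠ 0 := by omega
    have hm'N : m' ≤ N := hm'.2.trans (Nat.div_le_self _ _)
    have hyH' : y ≤ N / m' := by
      rw [Nat.le_div_iff_mul_le hm'.1, mul_comm]
      exact (Nat.le_div_iff_mul_le hy0).1 hm'.2
    have hlogH : Real.log y ≤ Real.log (N / m' : ℕ) :=
      Real.log_le_log (by exact_mod_cast hy0) (by exact_mod_cast hyH')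
    have h1 := hH₀ (N / m') (hyH.trans hyH') Q hQ hC' (u * f m').natAbs.primeFactors (by
      refine (hB m' N hm'0 hm'N).trans (hBy.trans ?_)
      exact pow_le_pow_left₀ (hθL.le.trans hlogy) hlogH 2) P ρ hρ1 hρ2 hρ0 0
    refine h1.trans ?_
    have h2 : (Real.log (N / m' : ℕ)) ^ (-(κ₀ / 2 + 1)) ≤ w :=
      Real.rpow_le_rpow_of_nonpos hθL (hlogy.trans hlogH) (by linarith)
    have h3 : ((N / m' : ℕ) : ℝ) ≤ N / m' := Nat.cast_div_le
    calc 19 * ((N / m' : ℕ) : ℝ) * (Real.log (N / m' : ℕ)) ^ (-(κ₀ / 2 + 1))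
        ≤ 19 * ((N : ℝ) / m') * w := by
          refine mul_le_mul (by linarith) h2 (Real.rpow_nonneg ?_ _) (by positivity)
          exact hθL.le.trans (hlogy.trans hlogH)
      _ = 19 * N * w * (m' : ℝ)⁻¹ := by rw [div_eq_mul_inv]; ring
  have hharm : ∑ m' ∈ Ioc 0 (N / y), (m' : ℝ)⁻¹ ≤ 1 + L := by
    have h1 : ∑ m' ∈ Ioc 0 (N / y), (m' : ℝ)⁻¹ ≤ ∑ m' ∈ Icc 1 N, (m' : ℝ)⁻¹ := by
      refine sum_le_sum_of_subset_of_nonneg (fun x hx => ?_) fun _ _ _ => by positivity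
      rw [mem_Ioc] at hx
      have := Nat.div_le_self N y
      exact mem_Icc.2 ⟨by omega, by omega⟩
    have h2 := harmonic_le_one_add_log N
    rw [harmonic_eq_sum_Icc] at h2
    push_cast at h2
    exact h1.trans h2
  have hfinal : w * (1 + L) ≤ 2 * L ^ (-(κ₀ / 8)) := by
    have h1 : w * L ≤ L ^ (-(κ₀ / 8)) := by
      rw [hw, ← Real.rpow_mul (by linarith)]
      nth_rewrite 2 [← Real.rpow_one L]
      rw [← Real.rpow_add (by linarith)]
      refine Real.rpow_le_rpow_of_exponent_le hL1 ?_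
      nlinarith
    have h2 : w * 1 ≤ w * L := mul_le_mul_of_nonneg_left hL1 hw0
    linarith
  calc (((Ioc 0 N).filter fun m => ∀ p ∈ Q, padicValInt p (u * f m) ≠ 1).card : ℝ)
      ≤ ((rough N y).card : ℝ) + ∑ m' ∈ Ioc 0 (N / y), ((S m').card : ℝ) := by
        have h1 := (card_le_card hsub).trans (card_union_le _ _)
        have h2 : ((Ioc 0 (N / y)).biUnion fun m' => (S m').image fun a => m' * a.natAbs).card ≤
            ∑ m' ∈ Ioc 0 (N / y), (S m').card :=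
          card_biUnion_le.trans (sum_le_sum fun m' _ => card_image_le)
        exact_mod_cast h1.trans (Nat.add_le_add_left h2 _)
    _ ≤ (2 * C + 8) * N * L ^ (-(κ₀ / 8)) + ∑ m' ∈ Ioc 0 (N / y), 19 * N * w * (m' : ℝ)⁻¹ := by
        refine add_le_add ((hC N y (by omega) hy0).trans hrough) (sum_le_sum hcard)
    _ = (2 * C + 8) * N * L ^ (-(κ₀ / 8)) + 19 * N * w * ∑ m' ∈ Ioc 0 (N / y), (m' : ℝ)⁻¹ := by
        rw [mul_sum]
    _ ≤ (2 * C + 8) * N * L ^ (-(κ₀ / 8)) + 19 * N * w * (1 + L) := by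
        refine add_le_add le_rfl (mul_le_mul_of_nonneg_left hharm (by positivity))
    _ = (2 * C + 8) * N * L ^ (-(κ₀ / 8)) + 19 * N * (w * (1 + L)) := by ring
    _ ≤ (2 * C + 8) * N * L ^ (-(κ₀ / 8)) + 19 * N * (2 * L ^ (-(κ₀ / 8))) :=
        add_le_add le_rfl (mul_le_mul_of_nonneg_left hfinal (by positivity))
    _ = ((2 * C + 8) + 38) * N * L ^ (-(κ₀ / 8)) := by ring

end Pool.Agent.T9h60.FD
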