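import Pool.Agent.T9h60.FD.Crit
import Pool.Agent.T9h60.FD.Cheb3

/-!
# The criterion for twists by the values of a polynomial
-/

set_option autoImplicit false

namespace Pool.Agent.T9h60.FD

open Finset Polynomial NumberField Pool.Agent.R925.FD
open Pool.Agent.W401.Cheb Pool.Agent.W723.SecC

/-- An element of an algebraic closure of `𝔽_p` fixed by the Frobenius map is in `𝔽_p`. -/
lemma mem_of_pow {p : ℕ} [hp : Fact p.Prime] {k' : Type} [Field k'] [Algebra (ZMod p) k'] (y : k')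
    (hy : y ^ p = y) : ∃ t : ZMod p, algebraMap (ZMod p) k' t = y := by
  classical
  by_contra hcon
  push Not at hcon
  set f : k'[X] := X ^ p - X with hf
  have hf0 : f ≠ 0 := by
    intro h
    have h1 := congrArg (fun q : k'[X] => q.coeff p) h
    simp only [hf, coeff_sub, coeff_X_pow, if_true, coeff_zero] at h1
    rw [coeff_X_of_ne_one hp.out.one_lt.ne', sub_zero] at h1
    exact one_ne_zero h1
  have hdeg : f.natDegree ≤ p := by
    rw [hf]
    refine (natDegree_sub_le _ _).trans ?_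
    rw [natDegree_X_pow, natDegree_X]
    exact max_le le_rfl hp.out.one_lt.le
  have hinj : Function.Injective (algebraMap (ZMod p) k') := (algebraMap (ZMod p) k').injective
  set S : Finset k' := insert y ((Finset.univ : Finset (ZMod p)).image (algebraMap (ZMod p) k')) with hS
  have hSc : S.card = p + 1 := by
    rw [hS, card_insert_of_notMem, card_image_of_injective _ hinj, card_univ, ZMod.card]
    intro h
    obtain ⟨t, -, ht⟩ := mem_image.1 h
    exact hcon t ht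
  have hSr : S ⊆ f.roots.toFinset := by
    intro x hx
    rw [Multiset.mem_toFinset, mem_roots hf0, IsRoot.def, hf, eval_sub, eval_pow, eval_X, sub_eq_zero]
    rcases mem_insert.1 hx with rfl | hx
    · exact hy
    · obtain ⟨t, -, rfl⟩ := mem_image.1 hx
      rw [← map_pow, ZMod.pow_card]
  have h1 := card_le_card hSr
  have h2 := (Multiset.toFinset_card_le f.roots).trans (card_roots' f)
  omega

/-- Modulo the primes with Frobenius element `τ` a polynomial with a simple zero fixed by `τ` has a simple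
zero. -/
theorem root_mod (L : Type) [Field L] [NumberField L] (τ : Gal(L/ℚ)) (P : ℤ[X]) (hP : P ≠ 0) (θ : L)
    (hτ : τ θ = θ) (h0 : aeval θ P = 0) (h1 : aeval θ (derivative P) ≠ 0) :
    ∃ m : ℕ, 0 < m ∧ ∀ p ∈ frobSet L τ m, ∃ t : ℤ, (p : ℤ) ∣ P.eval t ∧
      ¬ (p : ℤ) ∣ (derivative P).eval t := by
  have hc0 : P.leadingCoeff ≠ 0 := leadingCoeff_ne_zero.2 hP
  set c : ℤ := P.leadingCoeff with hc
  have hcL : (c : L) ≠ 0 := Int.cast_ne_zero.2 hc0
  have hint : IsIntegral ℤ ((c : L) * θ) := by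
    have := isIntegral_leadingCoeff_smul P θ h0
    rwa [← hc, zsmul_eq_mul] at this
  set x : 𝓞 L := ⟨(c : L) * θ, hint⟩ with hx
  have hxL : algebraMap (𝓞 L) L x = (c : L) * θ := rfl
  have hinj : Function.Injective (algebraMap (𝓞 L) L) := FaithfulSMul.algebraMap_injective _ _
  have hτx : τ • x = x := by
    apply hinj
    have h2 : algebraMap (𝓞 L) L (τ • x) = τ (algebraMap (𝓞 L) L x) := rfl
    rw [h2, hxL, map_mul, map_intCast, hτ]
  have hZL : algebraMap ℤ L = Int.castRingHom L := RingHom.ext_int _ _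
  have hval : ∀ f : ℤ[X], algebraMap (𝓞 L) L (hom f x (c : 𝓞 L)) = (c : L) ^ f.natDegree * aeval θ f := by
    intro f
    rw [hom_map, hxL, map_intCast]
    have e1 : hom f ((c : L) * θ) (c : L) = hom f ((c : L) * θ) ((c : L) * 1) := by rw [mul_one]
    rw [e1, hom_mul, hom_one, aeval_def, hZL]
  have hP0 : hom P x (c : 𝓞 L) = 0 := by
    apply hinj
    rw [hval, h0, mul_zero, map_zero]
  have hP1 : hom (derivative P) x (c : 𝓞 L) ≠ 0 := by
    intro h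
    have h2 := hval (derivative P)
    rw [h, map_zero] at h2
    exact mul_ne_zero (pow_ne_zero _ hcL) h1 h2.symm
  obtain ⟨mE, hmE, hnz⟩ := nz L _ hP1
  refine ⟨c.natAbs * mE, Nat.mul_pos (Int.natAbs_pos.2 hc0) hmE, ?_⟩
  rintro p ⟨hpp, hpm, hxp⟩
  have hF : Fact p.Prime := ⟨hpp⟩
  have hex : ∃ φ : 𝓞 L →+* AlgebraicClosure (ZMod p), HasFrob p φ τ := by
    unfold xp at hxp
    rw [dif_pos hpp] at hxp
    by_contra h
    push Not at h
    apply hxp
    rw [Nat.card_eq_zero]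
    left
    exact ⟨fun x => h x.1 x.2⟩
  obtain ⟨φ, hφ⟩ := hex
  have hφx : φ x ^ p = φ x := by rw [← hφ x, hτx]
  obtain ⟨t0, ht0⟩ := mem_of_pow (φ x) hφx
  set ι := algebraMap (ZMod p) (AlgebraicClosure (ZMod p)) with hι
  have hιinj : Function.Injective ι := ι.injective
  have hcp : (c : ZMod p) ≠ 0 := by
    intro h
    have h2 := Int.natCast_dvd.1 ((ZMod.intCast_zmod_eq_zero_iff_dvd _ p).1 h)
    exact hpm (h2.trans (Dvd.intro _ rfl))
  have hred : ∀ f : ℤ[X], ι (hom f t0 (c : ZMod p)) = φ (hom f x (c : 𝓞 L)) := by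
    intro f
    rw [hom_map, hom_map, ht0, map_intCast, map_intCast]
  set t : ZMod p := t0 / (c : ZMod p) with ht
  have hev : ∀ f : ℤ[X], hom f t0 (c : ZMod p) =
      (c : ZMod p) ^ f.natDegree * ((f.eval (t.val : ℤ) : ℤ) : ZMod p) := by
    intro f
    rw [hom_div f t0 hcp]
    congr 1
    have h2 := eval₂_at_apply (p := f) (Int.castRingHom (ZMod p)) (t.val : ℤ)
    rw [eq_intCast, eq_intCast] at h2
    have h3 : (((t.val : ℕ) : ℤ) : ZMod p) = t := by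
      rw [Int.cast_natCast, ZMod.natCast_zmod_val]
    rw [h3] at h2
    exact h2
  refine ⟨(t.val : ℤ), ?_, ?_⟩
  · have h2 := hred P
    rw [hP0, map_zero] at h2
    have h3 := hιinj (h2.trans (map_zero ι).symm)
    rw [hev] at h3
    have h4 := (mul_eq_zero.1 h3).resolve_left (pow_ne_zero _ hcp)
    exact (ZMod.intCast_zmod_eq_zero_iff_dvd _ p).1 h4
  · intro hd
    have h2 := hred (derivative P)
    rw [hev, (ZMod.intCast_zmod_eq_zero_iff_dvd _ p).2 hd, mul_zero, map_zero] at h2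
    refine hnz _ φ ?_ h2.symm
    intro h
    rw [CharP.cast_eq_zero_iff (AlgebraicClosure (ZMod p)) p] at h
    exact hpm (h.trans (Dvd.intro_left _ rfl))

/-- Every automorphism `σ` of the field of algebraic numbers which fixes a simple zero of `P` fixes a zero `β`
of `h` and, for every `k`, a solution `y` of `g k (β) = δ k * y ^ n`. -/
def PersistentFor (P : ℤ[X]) {K : Type} (n : ℕ) (g : K → ℤ[X]) (h : ℤ[X]) (δ : K → ℚ) : Prop :=
  ∀ σ : AlgebraicClosure ℚ ≃ₐ[ℚ] AlgebraicClosure ℚ,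
    (∃ θ, σ θ = θ ∧ aeval θ P = 0 ∧ aeval θ (derivative P) ≠ 0) →
    ∃ β, σ β = β ∧ aeval β h = 0 ∧
      ∀ k, ∃ y, σ y = y ∧ aeval β (g k) = (δ k : AlgebraicClosure ℚ) * y ^ n

/-- The coverings with points over all the fields `ℚ_p` are persistent for `P`. -/
def FDPropFor (P : ℤ[X]) {K : Type} [Fintype K] (n : ℕ) (b : ℤ) (g : K → ℤ[X]) (h : ℤ[X]) (a : ℤ) : Prop :=
  ∀ m, 2 ≤ m → m ∣ h.natDegree → ∀ δ : K → ℚ, IsClass n b δ →
    (∀ (p : ℕ) [Fact p.Prime], CoveringHasPoint n m a g h δ ℚ_[p]) → PersistentFor P n g h δ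

theorem poly_crit (P : ℤ[X]) (hP : P ≠ 0) {K : Type} [Fintype K] (n : ℕ) (hn : 0 < n) (b : ℤ) (hb : b ≠ 0)
    (g : K → ℤ[X])
    (h : ℤ[X]) (hg0 : ∀ k, g k ≠ 0) (hh0 : h ≠ 0) (hdeg : ∀ k, n ∣ (g k).natDegree)
    (hgg : ∀ k l, k ≠ l →
      IsCoprime ((g k).map (Int.castRingHom ℚ)) ((g l).map (Int.castRingHom ℚ)))
    (hgh : ∀ k, IsCoprime (h.map (Int.castRingHom ℚ)) ((g k).map (Int.castRingHom ℚ))) :
    ∃ (α : Type) (_ : Fintype α) (Q : α → Set ℕ),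
      (∀ i, (∃ (L : Type) (_ : Field L) (_ : NumberField L) (_ : IsGalois ℚ L) (τ : Gal(L/ℚ)) (m : ℕ),
        0 < m ∧ Q i = frobSet L τ m) ∧
        ∀ p ∈ Q i, ∃ t : ℤ, (p : ℤ) ∣ P.eval t ∧ ¬ (p : ℤ) ∣ (derivative P).eval t ∧
          (P.eval 0 ≠ 0 → ¬ (p : ℤ) ∣ t)) ∧
      ∀ a : ℤ, (∀ i, ∃ p ∈ Q i, (padicValInt p a).Coprime h.natDegree) → FDPropFor P n b g h a := by
  classical
  obtain ⟨N0, hN0, hgood⟩ := good_primes g h hg0 hh0 hgg hgh
  set N : ℕ := N0 * b.natAbs with hN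
  have hNpos : 0 < N := Nat.mul_pos hN0 (Int.natAbs_pos.2 hb)
  have hgoodN : ∀ p : ℕ, ¬ p ∣ N → ¬ p ∣ N0 ∧ ¬ (p : ℤ) ∣ b := fun p hp =>
    ⟨fun h1 => hp (h1.trans (Dvd.intro _ rfl)),
      fun h1 => hp ((Int.natCast_dvd.1 h1).trans (Dvd.intro_left _ rfl))⟩
  -- a number which is divisible by `P 0` if this is not zero
  obtain ⟨N1, hN1, hN1'⟩ : ∃ N1 : ℕ, 0 < N1 ∧ (P.eval 0 ≠ 0 → (P.eval 0).natAbs ∣ N1) := by
    by_cases h0 : P.eval 0 = 0
    · exact ⟨1, one_pos, fun h => absurd h0 h⟩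
    · exact ⟨(P.eval 0).natAbs, Int.natAbs_pos.2 h0, fun _ => dvd_rfl⟩
  -- the finite set of the classes
  set D : Finset ℤ := (Finset.Icc (-((N : ℤ) ^ n)) ((N : ℤ) ^ n)).filter (fun s => s ∣ (N : ℤ) ^ n)
    with hD
  have hNn : (0 : ℤ) < (N : ℤ) ^ n := pow_pos (by exact_mod_cast hNpos) n
  have hmemD : ∀ s : ℤ, s ∣ (N : ℤ) ^ n → s ∈ D := by
    intro s hs
    rw [hD, mem_filter, Finset.mem_Icc]
    have h1 := Int.le_of_dvd hNn hs
    have h2 := Int.le_of_dvd hNn ((neg_dvd).2 hs)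
    exact ⟨⟨by linarith, h1⟩, hs⟩
  have hD0 : ∀ s ∈ D, s ≠ 0 := by
    rintro s hs rfl
    rw [hD, mem_filter] at hs
    exact hNn.ne' (zero_dvd_iff.1 hs.2)
  set Δ : Finset (K → ℤ) := (Fintype.piFinset fun _ : K => D).filter
    (fun s => ¬ PersistentFor P n g h (fun k => (s k : ℚ))) with hΔ
  have hmemΔ : ∀ s : K → ℤ, s ∈ Δ ↔ (∀ k, s k ∈ D) ∧ ¬ PersistentFor P n g h (fun k => (s k : ℚ)) := by
    intro s
    rw [hΔ, mem_filter, Fintype.mem_piFinset]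
  have hex : ∀ s : Δ, ∃ (L : Type) (_ : Field L) (_ : NumberField L) (_ : IsGalois ℚ L)
      (τ : Gal(L/ℚ)) (m : ℕ), 0 < m ∧ ∀ p ∈ frobSet L τ m, p.Prime ∧ ¬ p ∣ N ∧ ¬ R p n g h s.1 ∧
        ∃ t : ℤ, (p : ℤ) ∣ P.eval t ∧ ¬ (p : ℤ) ∣ (derivative P).eval t ∧
          (P.eval 0 ≠ 0 → ¬ (p : ℤ) ∣ t) := by
    intro s
    obtain ⟨hsD, hnp⟩ := (hmemΔ s).1 s.2
    unfold PersistentFor at hnp
    push Not at hnp
    obtain ⟨σ, ⟨θ, hθσ, hθ0, hθ1⟩, hσ⟩ := hnp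
    obtain ⟨L, iF, iN, iG, j, τ, m, hj, hjτ, hm, hL⟩ := cheb3 n hn g h hh0 hdeg s.1
      (fun k => hD0 _ (hsD k)) σ {θ} (Set.finite_singleton θ) (by
      intro β h1 h2
      obtain ⟨k, hk⟩ := hσ β h1 h2
      refine ⟨k, fun y hy => ?_⟩
      have h3 := hk y hy
      rw [Rat.cast_intCast] at h3
      exact h3)
    obtain ⟨θ', hθ'⟩ := hj θ rfl
    have hjinj : Function.Injective j := j.injective
    have hZ : algebraMap ℤ (AlgebraicClosure ℚ) = j.comp (algebraMap ℤ L) := RingHom.ext_int _ _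
    have hae : ∀ f : ℤ[X], j (aeval θ' f) = aeval θ f := by
      intro f
      rw [aeval_def, aeval_def, hZ, ← hθ', hom_eval₂]
    obtain ⟨m', hm', hroot⟩ := root_mod L τ P hP θ' (by
      apply hjinj
      rw [hjτ, hθ', hθσ]) (by
      apply hjinj
      rw [hae, hθ0, map_zero]) (by
      intro h1
      apply hθ1
      rw [← hae, h1, map_zero])
    refine ⟨L, iF, iN, iG, τ, m * N * (m' * N1), Nat.mul_pos (Nat.mul_pos hm hNpos) (Nat.mul_pos hm' hN1),
      fun p hp => ⟨hp.1, fun h4 => hp.2.1 ((h4.trans (Dvd.intro_left _ rfl)).trans (Dvd.intro _ rfl)), ?_, ?_⟩⟩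
    · exact hL p ⟨hp.1, fun h4 => hp.2.1 ((h4.trans (Dvd.intro _ rfl)).trans (Dvd.intro _ rfl)), hp.2.2⟩
    · obtain ⟨t, ht1, ht2⟩ := hroot p ⟨hp.1,
        fun h4 => hp.2.1 ((h4.trans (Dvd.intro _ rfl)).trans (Dvd.intro_left _ rfl)), hp.2.2⟩
      refine ⟨t, ht1, ht2, fun h0 hpt => ?_⟩
      have h5 : t - 0 ∣ P.eval t - P.eval 0 := sub_dvd_eval_sub t 0 P
      rw [sub_zero] at h5
      have h6 := dvd_sub ht1 (hpt.trans h5)
      rw [sub_sub_cancel] at h6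
      have h7 : p ∣ (P.eval 0).natAbs := Int.natCast_dvd.1 h6
      exact hp.2.1 ((h7.trans (hN1' h0)).trans ((Dvd.intro_left m' rfl).trans (Dvd.intro_left _ rfl)))
  choose L iF iN iG τ m hm hL using hex
  refine ⟨Δ, inferInstance, fun s => frobSet (L s) (τ s) (m s),
    fun s => ⟨⟨L s, iF s, iN s, iG s, τ s, m s, hm s, rfl⟩, fun p hp => (hL s p hp).2.2.2⟩, ?_⟩
  intro a ha m' hm' hmh δ hδ hloc
  by_contra hnp
  obtain ⟨hδ0, t, ht⟩ := hδ
  have hval : ∀ k, ∀ p : ℕ, p.Prime → ¬ p ∣ N → (n : ℤ) ∣ padicValRat p (δ k) := by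
    intro k p hp hpN
    have hpF : Fact p.Prime := ⟨hp⟩
    obtain ⟨z, w, x, hzw, hx, hy⟩ := hloc p
    exact val_dvd hdeg (fun u v huv => (hgood p hpF (hgoodN p hpN).1 u v huv).1) hb
      (hgoodN p hpN).2 hδ0 ht hzw hy k
  choose s c hs hc hsc using fun k => rep (δ k) (hδ0 k) N hNpos n hn (hval k)
  have hsΔ : s ∈ Δ := by
    rw [hΔ, mem_filter, Fintype.mem_piFinset]
    refine ⟨fun k => hmemD _ (hs k), fun hper => hnp ?_⟩
    intro σ hσθ
    obtain ⟨β, hβ, hβh, hy⟩ := hper σ hσθ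
    refine ⟨β, hβ, hβh, fun k => ?_⟩
    obtain ⟨y, hyσ, hyk⟩ := hy k
    have hck : ((c k : ℚ) : AlgebraicClosure ℚ) ≠ 0 := Rat.cast_ne_zero.2 (hc k)
    have hσc : σ ((c k : ℚ) : AlgebraicClosure ℚ) = ((c k : ℚ) : AlgebraicClosure ℚ) :=
      map_ratCast σ (c k)
    refine ⟨y / (c k : ℚ), ?_, ?_⟩
    · rw [map_div₀, hyσ, hσc]
    · rw [hyk, hsc k, div_pow]
      push_cast
      have h5 : ((c k : ℚ) : AlgebraicClosure ℚ) ^ n ≠ 0 := pow_ne_zero _ hck
      field_simp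
  obtain ⟨p, hpQ, hpa⟩ := ha ⟨s, hsΔ⟩
  obtain ⟨hpp, hpN, hpR, -⟩ := hL ⟨s, hsΔ⟩ p hpQ
  have hpF : Fact p.Prime := ⟨hpp⟩
  apply hpR
  obtain ⟨z, w, x, hzw, hx, hy⟩ := hloc p
  have hma : ¬ m' ∣ padicValInt p a := by
    intro h6
    have h7 := Nat.dvd_gcd h6 hmh
    rw [hpa] at h7
    have := Nat.le_of_dvd one_pos h7
    omega
  obtain ⟨u, v, huv, hhuv, hred⟩ := reduces_val (K := K) hn hdeg hmh
    (fun u v huv => (hgood p hpF (hgoodN p hpN).1 u v huv).2) hma hzw hx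
  refine ⟨u, v, huv, hhuv, fun k => ?_⟩
  refine hred k (s k) (fun h3 => ?_) ?_
  · have h4 : (p : ℤ) ∣ (N : ℤ) ^ n := h3.trans (hs k)
    have h5 := (Nat.prime_iff_prime_int.1 hpF.out).dvd_of_dvd_pow h4
    exact hpN (by exact_mod_cast h5)
  · obtain ⟨y, hyk⟩ := hy k
    refine ⟨(c k : ℚ) * y, ?_⟩
    rw [hyk, hsc k]
    push_cast
    ring

end Pool.Agent.T9h60.FD
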