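import Pool.Agent.R925.FD.Sieve
import Pool.Agent.TH437.GR.Brun

/-!
# Values of a polynomial at the integers, and at the primes, of short intervals without exact prime divisors
# in a set of primes of positive lower density
-/

set_option autoImplicit false

namespace Pool.Agent.T9h60.FD

open Finset Filter Polynomial Pool.Agent.W262.RK

lemma mert_low : ∃ C : ℝ, ∀ x : ℕ, 3 ≤ x →
    Real.log (Real.log x) - C ≤ ∑ p ∈ PS 0 x, (1 : ℝ) / p := by
  obtain ⟨C, -, hC⟩ := Pool.Agent.H474R2.GE.mertens_rho (X : ℤ[X]) irreducible_X (by simp)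
  refine ⟨C, fun x hx => ?_⟩
  have hx3 : (3 : ℝ) ≤ (x : ℝ) := by exact_mod_cast hx
  have h := (abs_le.1 (hC x hx3)).1
  have h1 : Pool.Agent.H474R2.PG.Sg (Pool.Agent.H474R2.PG.rho (X : ℤ[X])) x =
      ∑ p ∈ PS 0 x, (1 : ℝ) / p := by
    unfold Pool.Agent.H474R2.PG.Sg Pool.Agent.H474R2.PG.PR PS
    rw [Nat.floor_natCast]
    have e : (Finset.Icc 1 x) = Finset.Ioc 0 x := by
      ext n; simp [Finset.mem_Icc, Finset.mem_Ioc, Nat.succ_le_iff]
    rw [e]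
    refine sum_congr rfl fun p hp => ?_
    have hpp : p.Prime := (mem_filter.1 hp).2
    have h2 : Pool.Agent.H474R2.PG.rho (X : ℤ[X]) p = 1 := by
      unfold Pool.Agent.H474R2.PG.rho
      rw [Finset.card_eq_one]
      refine ⟨0, ?_⟩
      ext a
      simp only [eval_X, mem_filter, mem_range, mem_singleton]
      constructor
      · rintro ⟨h3, h4⟩
        have h5 : p ∣ a := by exact_mod_cast h4
        exact Nat.eq_zero_of_dvd_of_lt h5 h3
      · rintro rfl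
        exact ⟨hpp.pos, by simp⟩
    rw [h2, Nat.cast_one]
  rw [h1] at h
  linarith

open Classical in
/-- the sum of the reciprocals of the elements of `P` -/
lemma low_sum (P : Set ℕ) (hP : ∀ p ∈ P, p.Prime) (δ C : ℝ) (hδ : 0 < δ)
    (hcount : ∀ N : ℕ, δ * (∑ n ∈ range N, Set.indicator {p | p.Prime} (fun _ => (1 : ℝ)) n) - C ≤
      ∑ n ∈ range N, Set.indicator P (fun _ => (1 : ℝ)) n) :
    ∃ κ : ℝ, 0 < κ ∧ κ ≤ 1 ∧ ∃ C' : ℝ, ∀ x : ℕ, 3 ≤ x →
      κ * Real.log (Real.log x) - C' ≤ ∑ p ∈ PS 0 x, (if p ∈ P then (1 : ℝ) else 0) / p := by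
  obtain ⟨κ, h0, h1, C1, hC1⟩ := Pool.Agent.R925.FD.sum_not P hP δ C hδ hcount
  obtain ⟨C2, hC2⟩ := mert_low
  refine ⟨κ, h0, h1, C1 + C2, fun x hx => ?_⟩
  have h2 := hC1 x hx
  have h3 := hC2 x hx
  have h4 : ∑ p ∈ PS 0 x, (if p ∈ P then (1 : ℝ) else 0) / p =
      ∑ p ∈ PS 0 x, (1 : ℝ) / p - ∑ p ∈ PS 0 x, (if p ∈ P then (0 : ℝ) else 1) / p := by
    rw [← sum_sub_distrib]
    refine sum_congr rfl fun p _ => ?_
    by_cases hp : p ∈ P
    · rw [if_pos hp, if_pos hp, zero_div, sub_zero]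
    · rw [if_neg hp, if_neg hp, zero_div, sub_self]
  rw [h4]
  linarith

/-- a set of integers in an interval, all differences of which are divisible by `d` -/
theorem card_class (M : ℤ) (H d : ℕ) (hd : 0 < d) (S : Finset ℤ) (hS : S ⊆ Ioc M (M + H))
    (hdiff : ∀ a ∈ S, ∀ b ∈ S, (d : ℤ) ∣ a - b) : (S.card : ℝ) ≤ (H : ℝ) / d + 1 := by
  classical
  rcases S.eq_empty_or_nonempty with rfl | ⟨a₀, ha₀⟩
  · simp only [card_empty, Nat.cast_zero]
    positivity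
  have hsub : S ⊆ (Ioc M (M + H)).filter fun x => x ≡ a₀ [ZMOD d] := by
    intro a ha
    refine mem_filter.2 ⟨hS ha, ?_⟩
    exact (Int.modEq_iff_dvd.2 (hdiff a₀ ha₀ a ha))
  have hdq : (0 : ℚ) < (d : ℚ) := by exact_mod_cast hd
  have h3 := Int.Ioc_filter_modEq_card M (M + H) (r := (d : ℤ)) (by exact_mod_cast hd) a₀
  have h4 : ((⌊((M + H : ℤ) - a₀ : ℚ) / ((d : ℤ) : ℚ)⌋ - ⌊((M : ℚ) - a₀) / ((d : ℤ) : ℚ)⌋ : ℤ) : ℚ) ≤
      (H : ℚ) / (d : ℚ) + 1 := by
    push_cast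
    have e1 := Int.floor_le (((M : ℚ) + H - a₀) / (d : ℚ))
    have e2 := Int.lt_floor_add_one (((M : ℚ) - a₀) / (d : ℚ))
    have e3 : ((M : ℚ) + H - a₀) / (d : ℚ) = ((M : ℚ) - a₀) / (d : ℚ) + (H : ℚ) / (d : ℚ) := by
      rw [← add_div]
      congr 1
      ring
    rw [e3] at e1
    rw [e3]
    linarith
  have h5 : ((((Ioc M (M + H)).filter fun x => x ≡ a₀ [ZMOD d]).card : ℤ) : ℚ) ≤
      (H : ℚ) / (d : ℚ) + 1 := by
    rw [h3]
    push_cast [max_le_iff] at h4 ⊢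
    exact ⟨h4, by positivity⟩
  have h6 : ((((((Ioc M (M + H)).filter fun x => x ≡ a₀ [ZMOD d]).card : ℤ) : ℚ) : ℚ) : ℝ) ≤
      (((H : ℚ) / (d : ℚ) + 1 : ℚ) : ℝ) := by exact_mod_cast h5
  push_cast at h6
  refine le_trans ?_ h6
  exact_mod_cast card_le_card hsub

open Classical in
/-- the values divisible by squares of primes, in one class -/
theorem squares (F : ℤ[X]) (ρ : ℕ → ℤ) (Q : Set ℕ) (hQ : ∀ p ∈ Q, p.Prime)
    (hρ : ∀ p ∈ Q, ¬ (p : ℤ) ∣ F.derivative.eval (ρ p)) (M : ℤ) (H z A : ℕ) (hz : z ≠ 0) (hzA : z ≤ A) :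
    (((Ioc M (M + H)).filter fun a => ∃ p ∈ PS z A, p ∈ Q ∧ (p : ℤ) ∣ a - ρ p ∧
      (p : ℤ) ^ 2 ∣ F.eval a).card : ℝ) ≤ (H : ℝ) / z + A := by
  classical
  have h1 : ((Ioc M (M + H)).filter fun a => ∃ p ∈ PS z A, p ∈ Q ∧ (p : ℤ) ∣ a - ρ p ∧
      (p : ℤ) ^ 2 ∣ F.eval a) ⊆
      (PS z A).biUnion fun p => (Ioc M (M + H)).filter fun a => p ∈ Q ∧ (p : ℤ) ∣ a - ρ p ∧
        (p : ℤ) ^ 2 ∣ F.eval a := by
    intro a ha
    obtain ⟨ha1, p, hp, hpa⟩ := mem_filter.1 ha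
    exact mem_biUnion.2 ⟨p, hp, mem_filter.2 ⟨ha1, hpa⟩⟩
  have h2 : ∀ p ∈ PS z A, (((Ioc M (M + H)).filter fun a => p ∈ Q ∧ (p : ℤ) ∣ a - ρ p ∧
        (p : ℤ) ^ 2 ∣ F.eval a).card : ℝ) ≤
      (H : ℝ) * ((p : ℝ) ^ 2)⁻¹ + 1 := by
    intro p hp
    have hpp := (mem_filter.1 hp).2
    have hp0 : 0 < p := hpp.pos
    have := card_class M H (p ^ 2) (by positivity) ((Ioc M (M + H)).filter fun a => p ∈ Q ∧ (p : ℤ) ∣ a - ρ p ∧
        (p : ℤ) ^ 2 ∣ F.eval a) (filter_subset _ _) (by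
      intro a ha b hb
      obtain ⟨-, hpQ, ha1, ha2⟩ := mem_filter.1 ha
      obtain ⟨-, -, hb1, hb2⟩ := mem_filter.1 hb
      push_cast
      have hpz : Prime (p : ℤ) := Nat.prime_iff_prime_int.1 hpp
      have hab : (p : ℤ) ∣ a - b := by
        have := dvd_sub ha1 hb1
        have e : a - ρ p - (b - ρ p) = a - b := by ring
        rwa [e] at this
      -- the derivative at `b`
      have hder : ¬ (p : ℤ) ∣ F.derivative.eval b := by
        intro h
        apply hρ p hpQ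
        have h3 : b - ρ p ∣ F.derivative.eval b - F.derivative.eval (ρ p) := sub_dvd_eval_sub b (ρ p) _
        have h4 := hb1.trans h3
        have h5 := dvd_sub h h4
        have e : F.derivative.eval b - (F.derivative.eval b - F.derivative.eval (ρ p)) =
          F.derivative.eval (ρ p) := by ring
        rwa [e] at h5
      obtain ⟨k, hk⟩ := Polynomial.binomExpansion F b (a - b)
      rw [add_sub_cancel] at hk
      have h6 : (p : ℤ) ^ 2 ∣ F.derivative.eval b * (a - b) := by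
        have e : F.derivative.eval b * (a - b) = F.eval a - F.eval b - k * (a - b) ^ 2 := by
          rw [hk]
          ring
        rw [e]
        exact dvd_sub (dvd_sub ha2 hb2) ((pow_dvd_pow_of_dvd hab 2).mul_left k)
      exact hpz.pow_dvd_of_dvd_mul_left 2 hder h6)
    push_cast at this
    rw [div_eq_mul_inv] at this
    exact this
  calc (((Ioc M (M + H)).filter fun a => ∃ p ∈ PS z A, p ∈ Q ∧ (p : ℤ) ∣ a - ρ p ∧
      (p : ℤ) ^ 2 ∣ F.eval a).card : ℝ)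
      ≤ ∑ p ∈ PS z A, (((Ioc M (M + H)).filter fun a => p ∈ Q ∧ (p : ℤ) ∣ a - ρ p ∧
        (p : ℤ) ^ 2 ∣ F.eval a).card : ℝ) := by
        exact_mod_cast (card_le_card h1).trans card_biUnion_le
    _ ≤ ∑ p ∈ PS z A, ((H : ℝ) * ((p : ℝ) ^ 2)⁻¹ + 1) := sum_le_sum h2
    _ ≤ ∑ p ∈ Ioc z A, ((H : ℝ) * ((p : ℝ) ^ 2)⁻¹ + 1) :=
        sum_le_sum_of_subset_of_nonneg (filter_subset _ _) fun _ _ _ => by positivity
    _ = (H : ℝ) * ∑ p ∈ Ioc z A, ((p : ℝ) ^ 2)⁻¹ + ((A - z : ℕ) : ℝ) := by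
        rw [sum_add_distrib, ← mul_sum, sum_const, Nat.card_Ioc, nsmul_eq_mul, mul_one]
    _ ≤ (H : ℝ) * ((z : ℝ)⁻¹ - (A : ℝ)⁻¹) + A := by
        gcongr
        · exact sum_Ioc_inv_sq_le_sub hz hzA
        · exact Nat.sub_le _ _
    _ ≤ (H : ℝ) / z + A := by
        have : (0 : ℝ) ≤ (A : ℝ)⁻¹ := by positivity
        have h0 : (0 : ℝ) ≤ H := Nat.cast_nonneg _
        rw [div_eq_mul_inv]
        nlinarith


open Classical in
/-- Brun's sieve in an interval: one class `ρ p` modulo each `p ∈ Q`, `z < p ≤ A`, is removed, and if `b` holds also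
the class `0` modulo all primes `p ≤ A`. -/
theorem brun_interval (Q : Set ℕ) (ρ : ℕ → ℤ) (b : Prop) (hb : b → ∀ p ∈ Q, ¬ (p : ℤ) ∣ ρ p)
    (M : ℤ) (H z A k : ℕ) :
    (((Ioc M (M + H)).filter fun a => (b → ∀ p ∈ PS 0 A, ¬ (p : ℤ) ∣ a) ∧
        ∀ p ∈ PS z A, p ∈ Q → ¬ (p : ℤ) ∣ a - ρ p).card : ℝ) ≤
      H * Real.exp (-((if b then ∑ p ∈ PS 0 A, (1 : ℝ) / p else 0) +
        ∑ p ∈ PS z A, (if p ∈ Q then (1 : ℝ) else 0) / p)) +
      (H * Real.exp (-(2 * (2 * k + 1 : ℕ)) + Real.exp 2 * ∑ p ∈ Nat.primesBelow (A + 1), 2 / (p : ℝ)) +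
      Real.exp 2 * (A + 1) ^ (2 * k + 1)) := by
  set g : ℕ → ℕ → ℝ := fun p r => if (b ∧ (p : ℤ) ∣ M + 1 + r) ∨ (z < p ∧ p ∈ Q ∧ (p : ℤ) ∣ M + 1 + r - ρ p)
    then 0 else 1 with hg
  have hg0 : ∀ p r, 0 ≤ g p r := fun p r => by
    simp only [hg]
    split_ifs <;> norm_num
  have hg1 : ∀ p r, g p r ≤ 1 := fun p r => by
    simp only [hg]
    split_ifs <;> norm_num
  -- exactly one residue is in a given class
  have hone : ∀ (c : ℤ) (p : ℕ), 0 < p → ((range p).filter fun r : ℕ => (p : ℤ) ∣ M + 1 + r - c).card = 1 := by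
    intro c p hp
    rw [card_eq_one]
    have hpz : (0 : ℤ) < p := by exact_mod_cast hp
    obtain ⟨r₀, hr₀⟩ : ∃ r₀ : ℕ, (r₀ : ℤ) = (c - (M + 1)) % p :=
      ⟨((c - (M + 1)) % p).toNat, Int.toNat_of_nonneg (Int.emod_nonneg _ hpz.ne')⟩
    have h1 : (p : ℤ) ∣ M + 1 + r₀ - c := by
      rw [hr₀]
      have h2 := Int.emod_add_mul_ediv (c - (M + 1)) p
      exact ⟨-((c - (M + 1)) / p), by linarith⟩
    have h2 : r₀ < p := by
      have := Int.emod_lt_of_pos (c - (M + 1)) hpz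
      rw [← hr₀] at this
      exact_mod_cast this
    refine ⟨r₀, ?_⟩
    ext r
    rw [mem_filter, mem_range, mem_singleton]
    constructor
    · rintro ⟨h3, h4⟩
      have h5 : (p : ℤ) ∣ (r : ℤ) - r₀ := by
        have := dvd_sub h4 h1
        have e : M + 1 + (r : ℤ) - c - (M + 1 + r₀ - c) = r - r₀ := by ring
        rwa [e] at this
      have h6 : ((r : ℤ) - r₀) = 0 := by
        refine Int.eq_zero_of_abs_lt_dvd h5 ?_
        rw [abs_lt]
        constructor <;> omega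
      omega
    · rintro rfl
      exact ⟨h2, h1⟩
  have hsum : ∀ p : ℕ, 0 < p → ∑ r ∈ range p, g p r =
      (p : ℝ) - (if b then 1 else 0) - (if z < p ∧ p ∈ Q then 1 else 0) := by
    intro p hp
    have h1 : ∀ r ∈ range p, g p r = 1 - (if b ∧ (p : ℤ) ∣ M + 1 + r - 0 then (1 : ℝ) else 0) -
        (if (z < p ∧ p ∈ Q) ∧ (p : ℤ) ∣ M + 1 + r - ρ p then (1 : ℝ) else 0) := by
      intro r _
      simp only [hg, sub_zero]
      by_cases h2 : b ∧ (p : ℤ) ∣ M + 1 + r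
      · have h3 : ¬ ((z < p ∧ p ∈ Q) ∧ (p : ℤ) ∣ M + 1 + r - ρ p) := by
          rintro ⟨⟨-, h4⟩, h5⟩
          apply hb h2.1 p h4
          have := dvd_sub h2.2 h5
          have e : M + 1 + (r : ℤ) - (M + 1 + r - ρ p) = ρ p := by ring
          rwa [e] at this
        rw [if_pos (Or.inl h2), if_pos h2, if_neg h3]
        norm_num
      · by_cases h3 : (z < p ∧ p ∈ Q) ∧ (p : ℤ) ∣ M + 1 + r - ρ p
        · rw [if_pos (Or.inr ⟨h3.1.1, h3.1.2, h3.2⟩), if_neg h2, if_pos h3]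
          norm_num
        · rw [if_neg, if_neg h2, if_neg h3]
          · norm_num
          · rintro (h4 | ⟨h4, h5, h6⟩)
            · exact h2 h4
            · exact h3 ⟨⟨h4, h5⟩, h6⟩
    have h2 : ∀ (u : Prop) (c : ℤ), ∑ r ∈ range p, (if u ∧ (p : ℤ) ∣ M + 1 + (r : ℤ) - c then (1 : ℝ) else 0) =
        if u then 1 else 0 := by
      intro u c
      by_cases hu : u
      · simp only [hu, true_and, if_true]
        rw [← sum_filter, sum_const, hone c p hp]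
        simp
      · simp [hu]
    have e1 : ∑ r ∈ range p, (if b ∧ (p : ℤ) ∣ M + 1 + (r : ℤ) - 0 then (1 : ℝ) else 0) =
        if b then 1 else 0 := by
      convert h2 b 0
    have e2 : ∑ r ∈ range p, (if (z < p ∧ p ∈ Q) ∧ (p : ℤ) ∣ M + 1 + (r : ℤ) - ρ p then (1 : ℝ) else 0) =
        if z < p ∧ p ∈ Q then 1 else 0 := by
      convert h2 (z < p ∧ p ∈ Q) (ρ p)
    rw [sum_congr rfl h1, sum_sub_distrib, sum_sub_distrib, e1, e2, sum_const, card_range]
    simp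
  have hT : ∀ p ∈ Nat.primesBelow (A + 1), 0 < p := fun p hp => (Nat.prime_of_mem_primesBelow hp).pos
  have hbr := Pool.Agent.TH437.GR.brun A g hg0 hg1 (by
    intro p hp
    rw [hsum p (hT p hp)]
    split_ifs <;> linarith) H k
  have hb2 := (abs_le.1 hbr).2
  -- the sum counts
  have hcnt : (((Ioc M (M + H)).filter fun a => (b → ∀ p ∈ PS 0 A, ¬ (p : ℤ) ∣ a) ∧
        ∀ p ∈ PS z A, p ∈ Q → ¬ (p : ℤ) ∣ a - ρ p).card : ℝ) ≤
      ∑ n ∈ range H, ∏ p ∈ Nat.primesBelow (A + 1), g p (n % p) := by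
    set S := (range H).filter fun n : ℕ => (b → ∀ p ∈ PS 0 A, ¬ (p : ℤ) ∣ M + 1 + n) ∧
        ∀ p ∈ PS z A, p ∈ Q → ¬ (p : ℤ) ∣ M + 1 + n - ρ p with hS
    have h1 : ((Ioc M (M + H)).filter fun a => (b → ∀ p ∈ PS 0 A, ¬ (p : ℤ) ∣ a) ∧
        ∀ p ∈ PS z A, p ∈ Q → ¬ (p : ℤ) ∣ a - ρ p).card ≤ S.card := by
      refine card_le_card_of_injOn (fun a => (a - (M + 1)).toNat) ?_ ?_
      · intro a ha
        rw [mem_coe, mem_filter, mem_Ioc] at ha
        obtain ⟨⟨ha1, ha2⟩, ha3, ha4⟩ := ha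
        have e : (((a - (M + 1)).toNat : ℕ) : ℤ) = a - (M + 1) := Int.toNat_of_nonneg (by omega)
        rw [hS, mem_coe, mem_filter, mem_range]
        change (a - (M + 1)).toNat < H ∧ (b → ∀ p ∈ PS 0 A, ¬ (p : ℤ) ∣ M + 1 + (((a - (M + 1)).toNat : ℕ) : ℤ)) ∧
          ∀ p ∈ PS z A, p ∈ Q → ¬ (p : ℤ) ∣ M + 1 + (((a - (M + 1)).toNat : ℕ) : ℤ) - ρ p
        have e2 : M + 1 + (a - (M + 1)) = a := by ring
        rw [e, e2]
        exact ⟨by omega, ha3, ha4⟩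
      · intro a ha a' ha' h
        rw [mem_coe, mem_filter, mem_Ioc] at ha ha'
        simp only at h
        omega
    calc (((Ioc M (M + H)).filter fun a => (b → ∀ p ∈ PS 0 A, ¬ (p : ℤ) ∣ a) ∧
          ∀ p ∈ PS z A, p ∈ Q → ¬ (p : ℤ) ∣ a - ρ p).card : ℝ)
        ≤ (S.card : ℝ) := by exact_mod_cast h1
      _ = ∑ n ∈ S, (1 : ℝ) := by simp
      _ ≤ ∑ n ∈ S, ∏ p ∈ Nat.primesBelow (A + 1), g p (n % p) := by
          refine sum_le_sum fun n hn => ?_
          rw [hS, mem_filter] at hn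
          rw [prod_eq_one]
          intro p hp
          have hpp := Nat.prime_of_mem_primesBelow hp
          have hlt := Nat.lt_of_mem_primesBelow hp
          have h5 : (n : ℤ) = (n % p : ℕ) + p * (n / p : ℕ) := by
            exact_mod_cast (Nat.mod_add_div n p).symm
          simp only [hg]
          rw [if_neg]
          rintro (⟨h2, h4⟩ | ⟨h2, h3, h4⟩)
          · refine hn.2.1 h2 p (mem_filter.2 ⟨mem_Ioc.2 ⟨hpp.pos, by omega⟩, hpp⟩) ?_
            rw [h5]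
            have : M + 1 + (((n % p : ℕ) : ℤ) + p * (n / p : ℕ)) =
              (M + 1 + ((n % p : ℕ) : ℤ)) + p * (n / p : ℕ) := by ring
            rw [this]
            exact dvd_add h4 (Dvd.intro _ rfl)
          · refine hn.2.2 p (mem_filter.2 ⟨mem_Ioc.2 ⟨h2, by omega⟩, hpp⟩) h3 ?_
            rw [h5]
            have : M + 1 + (((n % p : ℕ) : ℤ) + p * (n / p : ℕ)) - ρ p =
              (M + 1 + ((n % p : ℕ) : ℤ) - ρ p) + p * (n / p : ℕ) := by ring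
            rw [this]
            exact dvd_add h4 (Dvd.intro _ rfl)
      _ ≤ ∑ n ∈ range H, ∏ p ∈ Nat.primesBelow (A + 1), g p (n % p) :=
          sum_le_sum_of_subset_of_nonneg (filter_subset _ _) fun n _ _ =>
            prod_nonneg fun p _ => hg0 _ _
  have hprod : ∏ p ∈ Nat.primesBelow (A + 1), ((∑ r ∈ range p, g p r) / p) ≤
      Real.exp (-((if b then ∑ p ∈ PS 0 A, (1 : ℝ) / p else 0) +
        ∑ p ∈ PS z A, (if p ∈ Q then (1 : ℝ) else 0) / p)) := by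
    have h0 : Nat.primesBelow (A + 1) = PS 0 A := by
      ext p
      unfold PS
      rw [Nat.mem_primesBelow, mem_filter, mem_Ioc]
      constructor
      · rintro ⟨h3, h4⟩
        exact ⟨⟨h4.pos, by omega⟩, h4⟩
      · rintro ⟨h3, h4⟩
        exact ⟨by omega, h4⟩
    have h1 : ∑ p ∈ PS z A, (if p ∈ Q then (1 : ℝ) else 0) / p =
        ∑ p ∈ PS 0 A, (if z < p ∧ p ∈ Q then (1 : ℝ) else 0) / p := by
      have hsub : PS z A ⊆ PS 0 A := by
        intro p hp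
        obtain ⟨h2, h3⟩ := mem_filter.1 hp
        rw [mem_Ioc] at h2
        exact mem_filter.2 ⟨mem_Ioc.2 ⟨h3.pos, h2.2⟩, h3⟩
      rw [← sum_subset hsub]
      · refine sum_congr rfl fun p hp => ?_
        have h2 := (mem_Ioc.1 (mem_filter.1 hp).1).1
        by_cases hpP : p ∈ Q
        · rw [if_pos hpP, if_pos ⟨h2, hpP⟩]
        · rw [if_neg hpP, if_neg fun h => hpP h.2]
      · intro p hp hp2
        rw [if_neg, zero_div]
        rintro ⟨h2, -⟩
        obtain ⟨h3, h4⟩ := mem_filter.1 hp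
        exact hp2 (mem_filter.2 ⟨mem_Ioc.2 ⟨h2, (mem_Ioc.1 h3).2⟩, h4⟩)
    have h2 : (if b then ∑ p ∈ PS 0 A, (1 : ℝ) / p else 0) = ∑ p ∈ PS 0 A, (if b then (1 : ℝ) else 0) / p := by
      split_ifs
      · rfl
      · simp
    rw [h1, h2, ← sum_add_distrib, ← sum_neg_distrib, Real.exp_sum, h0]
    refine prod_le_prod (fun p _ => div_nonneg (sum_nonneg fun r _ => hg0 _ _) (Nat.cast_nonneg _)) ?_
    intro p hp
    have hpp : 0 < p := ((mem_filter.1 hp).2).pos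
    have hp0 : (0 : ℝ) < p := by exact_mod_cast hpp
    rw [hsum p hpp, sub_sub, sub_div, div_self hp0.ne', ← add_div]
    have := Real.add_one_le_exp (-(((if b then (1 : ℝ) else 0) + (if z < p ∧ p ∈ Q then 1 else 0)) / (p : ℝ)))
    linarith
  have hH : (0 : ℝ) ≤ H := Nat.cast_nonneg _
  have := mul_le_mul_of_nonneg_left hprod hH
  linarith

end Pool.Agent.T9h60.FD
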