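import Pool.Agent.Results.MP_d37f77_nt.TwistedCyclicCoverings
import Pool.Agent.T9h60.FD.PEx

/-!
# Finite descent on cyclic coverings: the conclusions
-/

set_option autoImplicit false

namespace Pool.Agent.T9h60.FD

open Polynomial Pool.Agent.R925.FD
open Pool.Agent.Results.MP_d37f77_nt.TwistedCyclicCoverings (Admissible LocallySoluble)

/-- The coverings of the curves `C a` with points over all the fields `ℚ_p` are persistent for `P`. -/
def OnlyPersistentFor (P : ℤ[X]) {K : Type} [Fintype K] (n : ℕ) (b : ℤ) (g : K → ℤ[X]) (h : ℤ[X])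
    (a : ℤ) : Prop :=
  ∀ m, 2 ≤ m → m ∣ h.natDegree → ∀ δ : K → ℚ, IsClass n b δ → LocallySoluble n m a g h δ →
    PersistentFor P n g h δ

/-- No covering of one of the curves `C a` has points over all the fields `ℚ_p`, and the curves have no
rational points. -/
def EmptySelmer {K : Type} [Fintype K] (n : ℕ) (b : ℤ) (g : K → ℤ[X]) (h : ℤ[X]) (a : ℤ) : Prop :=
  ∀ m, 2 ≤ m → m ∣ h.natDegree → (∀ δ : K → ℚ, IsClass n b δ → ¬ LocallySoluble n m a g h δ) ∧
    ¬ CurveHasPoint n m b a g h ℚ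

/-- The coverings of the curves `C a` which have points over all the fields `ℚ_p` have rational points. -/
def HassePrinciple {K : Type} [Fintype K] (b : ℤ) (g : K → ℤ[X]) (h : ℤ[X]) (a : ℤ) : Prop :=
  ∀ m, 2 ≤ m → m ∣ h.natDegree → ∀ δ : K → ℚ, IsClass 2 b δ → LocallySoluble 2 m a g h δ →
    CoveringHasPoint 2 m a g h δ ℚ

section
variable {K : Type} [Fintype K] {n : ℕ} {b : ℤ} {g : K → ℤ[X]} {h : ℤ[X]} {a : ℤ}

lemma only_of {P : ℤ[X]} (hp : FDPropFor P n b g h a) : OnlyPersistentFor P n b g h a :=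
  fun m hm hmh δ h1 h2 => hp m hm hmh δ h1 h2

omit [Fintype K] in
/-- A rational point of a covering is a point over `ℚ_p`. -/
lemma local_of_rational {m : ℕ} {δ : K → ℚ} (hC : CoveringHasPoint n m a g h δ ℚ) :
    LocallySoluble n m a g h δ := by
  intro p hp
  obtain ⟨z, w, x, hzw, hx, hy⟩ := hC
  refine ⟨(z : ℚ_[p]), (w : ℚ_[p]), (x : ℚ_[p]), ?_, ?_, fun k => ?_⟩
  · rcases hzw with h1 | h1
    · exact Or.inl (Rat.cast_ne_zero.2 h1)
    · exact Or.inr (Rat.cast_ne_zero.2 h1)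
  · have h2 := congrArg (fun q : ℚ => (q : ℚ_[p])) hx
    simp only [Rat.cast_mul, Rat.cast_pow, Rat.cast_intCast] at h2
    rw [h2]
    exact (hom_map h (Rat.castHom ℚ_[p]) z w)
  · obtain ⟨y, hyk⟩ := hy k
    refine ⟨(y : ℚ_[p]), ?_⟩
    have h2 := congrArg (fun q : ℚ => (q : ℚ_[p])) hyk
    simp only [Rat.cast_mul, Rat.cast_pow, Rat.cast_id] at h2
    rw [← h2]
    exact (hom_map (g k) (Rat.castHom ℚ_[p]) z w).symm

lemma empty_of {P : ℤ[X]} (hA : Admissible n b g h)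
    (hno : ∀ δ : K → ℚ, IsClass n b δ → ¬ PersistentFor P n g h δ)
    (hp : OnlyPersistentFor P n b g h a) : EmptySelmer n b g h a := by
  classical
  intro m hm hmh
  refine ⟨fun δ h1 h2 => hno δ h1 (hp m hm hmh δ h1 h2), fun hC => ?_⟩
  obtain ⟨δ, h1, h2⟩ := exists_class n m hA.n_pos b a hA.b_ne g h hA.g_ne hA.coprime hC
  exact hno δ h1 (hp m hm hmh δ h1 (local_of_rational h2))

omit [Fintype K] in
/-- persistent classes are persistent for `P` -/
lemma persistentFor_of (P : ℤ[X]) {δ : K → ℚ} (hp : Persistent n g h δ) : PersistentFor P n g h δ :=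
  fun σ _ => hp σ

omit [Fintype K] in
lemma persistent_of {P : ℤ[X]} {q : ℚ} (h0 : aeval q P = 0) (h1 : aeval q (derivative P) ≠ 0) {δ : K → ℚ}
    (hp : PersistentFor P n g h δ) : Persistent n g h δ := by
  have hcast : ∀ f : ℤ[X], aeval (q : AlgebraicClosure ℚ) f = ((aeval q f : ℚ) : AlgebraicClosure ℚ) := by
    intro f
    rw [aeval_def, aeval_def]
    have e1 : algebraMap ℤ (AlgebraicClosure ℚ) =
        (Rat.castHom (AlgebraicClosure ℚ)).comp (algebraMap ℤ ℚ) := RingHom.ext_int _ _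
    rw [e1]
    exact (hom_eval₂ f (algebraMap ℤ ℚ) (Rat.castHom (AlgebraicClosure ℚ)) q).symm
  intro σ
  refine hp σ ⟨(q : AlgebraicClosure ℚ), map_ratCast σ q, ?_, ?_⟩
  · rw [hcast, h0, Rat.cast_zero]
  · rw [hcast]
    exact Rat.cast_ne_zero.2 h1

lemma hasse_of {α₁ α₂ : ℤ} (hA : Admissible 2 b g h)
    (hz : ∀ β : AlgebraicClosure ℚ, aeval β h = 0 ↔ β = α₁ ∨ β = α₂)
    {P : ℤ[X]} {q : ℚ} (h0 : aeval q P = 0) (h1 : aeval q (derivative P) ≠ 0)
    (hp : OnlyPersistentFor P 2 b g h a) : HassePrinciple b g h a := by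
  intro m hm hmh δ h3 h4
  have hper := persistent_of h0 h1 (hp m hm hmh δ h3 h4)
  -- the zeros of `h`
  have hzero : ∀ α : ℤ, aeval (α : AlgebraicClosure ℚ) h = 0 → h.eval α = 0 := by
    intro α hα
    have h6 := aeval_algebraMap_apply_eq_algebraMap_eval (A := AlgebraicClosure ℚ) α h
    rw [eq_intCast, eq_intCast, hα] at h6
    exact_mod_cast h6.symm
  have hpt : ∀ (f : ℤ[X]) (α : ℤ), hom f (α : ℚ) 1 = ((f.eval α : ℤ) : ℚ) := by
    intro f α
    rw [hom_one]
    have h6 := eval₂_at_apply (p := f) (Int.castRingHom ℚ) α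
    rw [eq_intCast, eq_intCast] at h6
    exact h6
  have hg : ∀ (k : K) (α : ℤ), h.eval α = 0 → (g k).eval α ≠ 0 := by
    intro k α hα hgα
    refine coprime_field hA.h_ne (hA.coprime_h k) (F := ℚ) (z := (α : ℚ)) (w := 1)
      (Or.inr one_ne_zero) ?_ ?_
    · rw [hpt, hα, Int.cast_zero]
    · rw [hpt, hgα, Int.cast_zero]
  have hα₁ := hzero α₁ ((hz α₁).2 (Or.inl rfl))
  have hα₂ := hzero α₂ ((hz α₂).2 (Or.inr rfl))
  have key : ∀ α : ℤ, h.eval α = 0 → (∀ k, IsSquare (δ k * ((g k).eval α : ℤ))) →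
      CoveringHasPoint 2 m a g h δ ℚ := by
    intro α hα hsq
    refine ⟨α, 1, 0, Or.inr one_ne_zero, ?_, fun k => ?_⟩
    · rw [hpt, hα, zero_pow (by omega : m ≠ 0), mul_zero, Int.cast_zero]
    · obtain ⟨r, hr⟩ := hsq k
      have h7 := h3.1 k
      refine ⟨r / δ k, ?_⟩
      rw [hpt, Rat.cast_id, div_pow, sq r, ← hr]
      field_simp
  rcases persistent_two g h α₁ α₂ (fun β hβ => (hz β).1 hβ) (fun k => hg k α₁ hα₁)
    (fun k => hg k α₂ hα₂) δ h3.1 hper with h6 | h6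
  · exact key α₁ hα₁ h6
  · exact key α₂ hα₂ h6

end

/-- The example: local points everywhere but no covering with points over all `ℚ_p`, and no rational points. -/
def Counterexample (m : ℕ) (a : ℤ) : Prop :=
  (CurveHasPoint 2 m 1 a exg exh ℝ ∧ ∀ (p : ℕ) [Fact p.Prime], CurveHasPoint 2 m 1 a exg exh ℚ_[p]) ∧
    (∀ δ : Fin 2 → ℚ, IsClass 2 1 δ → ¬ LocallySoluble 2 m a exg exh δ) ∧
    ¬ CurveHasPoint 2 m 1 a exg exh ℚ

lemma ex_admissible : Admissible 2 1 exg exh :=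
  Pool.Agent.Results.MP_d37f77_nt.TwistedCyclicCoverings.result.2.2.1

lemma ex_of {a : ℤ} (hE : EmptySelmer 2 1 exg exh a) (m : ℕ) (hm : m = 2 ∨ m = 3 ∨ m = 6) :
    Counterexample m a := by
  have hm0 : m ≠ 0 := by omega
  have hm2 : 2 ≤ m := by omega
  have hmd : m ∣ exh.natDegree := by
    rw [exh_deg]
    rcases hm with rfl | rfl | rfl <;> norm_num
  exact ⟨Pool.Agent.Results.MP_d37f77_nt.TwistedCyclicCoverings.result.2.2.2.2 a m hm0, hE m hm2 hmd⟩

end Pool.Agent.T9h60.FD
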